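import Pool.Agent.R410.EP.Mod
import Pool.Agent.R410.EP.Sep
import Pool.Agent.R410.BA.Fin
import Pool.Agent.R410.NG.Ch
import Pool.Agent.U621.JC.Irr

/-!
# Tate's form of the Birch–Swinnerton-Dyer conjecture for Jacobians of every dimension over the fields of rational functions over an arbitrary finitely generated field of characteristic zero

Let `M` be a finitely generated field of characteristic zero and of transcendence degree `d` over `ℚ`,
let `K = M(w)` be the field of rational functions over `M`, and let `C` be a hyperelliptic curve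

  `Y² = a(X) w² + b(X) w + c(X)`

of genus `g` over `K`: `a, b, c ∈ M[X]`, where `c` is monic of degree `2g + 1`, the degrees of `a` and `b`
are at most `2g`, and the right hand side is separable.  `C` has one point at infinity, and it is
rational; thus the group `J(K)` of the points of the Jacobian `J = Pic⁰_C` is the class group of the ring
`K[X, Y] / (Y² - a w² - b w - c)`.

We prove Tate's conjecture (Q1) for `X = C` over `K`, with `n = d + 2`, the dimension of the models:

* The rank of `J(K)` is finite; it is the number `ρ = σ - ε`, where `σ` is the number of the monic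
  irreducible polynomials `δ ∈ M[X]` such that `a T² + b T + c` is modulo `δ` the square of a nonzero
  polynomial `r T + s`, and `ε = 1` if `a` is a nonzero square, and `ε = 0` otherwise.
* For each integral domain `R`, finitely generated over `ℤ` and with the field of fractions `K`, each monic
  polynomial `G ∈ R[X]` which gives the right hand side over `K`, and each `N ≠ 0` in `R`, the Euler product
  `Φ₁(s) = ∏ P_{y,1}(q_y^{-s})⁻¹` over the closed points `y` of `Spec R` with `N ∉ y` converges for
  `Re s > n + 1/2`, it continues to an analytic function for `Re s > n` which is meromorphic at `s = n`,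
  and its order of vanishing there is the rank of `J(K)`.

For every `M` and every `g ≥ 1` all the ranks `0, 1, ..., 4g - 1` occur among these Jacobians.

`M` is arbitrary: it may be the function field of any variety over a number field.  For example, for
`M = M₀(x)` and the generic point `(x, y)` of a curve `y² = c₁(x) + v b₁(x)` of a linear pencil of
hyperelliptic curves over `M₀(v)`, `M(y) = M₀(x, y)` is the function field of this curve over `M₀(v)`, and the
curves `Y² = c(X) + v b(X)` are of the form above over it.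
-/

set_option autoImplicit false

namespace Pool.Agent.Results.MP_9faec4_nt.HyperellipticJacobians

open Polynomial

/-- The polynomial `c(X) + w b(X) + w² a(X)` over `K`. -/
noncomputable def curve {M K : Type} [Field M] [Field K] [Algebra M K] (a b c : M[X]) (w : K) : K[X] :=
  c.map (algebraMap M K) + C w * b.map (algebraMap M K) + C (w ^ 2) * a.map (algebraMap M K)

/-- Modulo `δ`, the polynomial `a T² + b T + c` is the square of a nonzero polynomial `r T + s`. -/
def IsSplit {M : Type} [Field M] (a b c δ : M[X]) : Prop :=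
  ∃ r s : M[X], δ ∣ a - r ^ 2 ∧ δ ∣ b - 2 * r * s ∧ δ ∣ c - s ^ 2 ∧ ¬ (δ ∣ r ∧ δ ∣ s)

/-- The number of the monic irreducible polynomials over which the conic splits. -/
noncomputable def sigma {M : Type} [Field M] (a b c : M[X]) : ℕ :=
  Nat.card {δ : M[X] // δ.Monic ∧ Irreducible δ ∧ IsSplit a b c δ}

open Classical in
/-- `σ - 1` if `a` is a nonzero square, and `σ` otherwise. -/
noncomputable def rho {M : Type} [Field M] (a b c : M[X]) : ℕ :=
  sigma a b c - if a ≠ 0 ∧ IsSquare a then 1 else 0

/-- The curve `Y² = a(X) w² + b(X) w + c(X)` is smooth of genus `g` with one point at infinity, and the conic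
over the field `M(X)` is not degenerate. -/
structure IsConicBundle {M K : Type} [Field M] [Field K] [Algebra M K] (g : ℕ) (a b c : M[X]) (w : K) :
    Prop where
  monic : c.Monic
  deg_c : c.natDegree = 2 * g + 1
  deg_a : a.natDegree < 2 * g + 1
  deg_b : b.natDegree < 2 * g + 1
  disc : b ^ 2 - 4 * a * c ≠ 0
  sep : (curve a b c w).Separable

/-- The rank of the class group of the ring `K[X, Y] / (Y² - F(X))`. -/
def ClassGroupHasRank {K : Type} [Field K] (F : K[X]) (n : ℕ) : Prop :=
  ∃ _ : IsDomain (AdjoinRoot (X ^ 2 - C F : K[X][X])),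
    Module.rank ℤ (Additive (ClassGroup (AdjoinRoot (X ^ 2 - C F : K[X][X])))) = n

/-- The number of the points `(x, y)` of the affine curve `y² = g(x)` over the algebraic closure of the field
`k` with `x ^ n = x` and `y ^ n = y`: if `k` has `q` elements and `n = q ^ j`, these are the points over the
extension of `k` of degree `j`. -/
noncomputable def points (k : Type) [Field k] (g : k[X]) (n : ℕ) : ℕ :=
  Nat.card {P : AlgebraicClosure k × AlgebraicClosure k //
    P.1 ^ n = P.1 ∧ P.2 ^ n = P.2 ∧ P.2 ^ 2 = aeval P.1 g}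

/-- The norm `q_y` of a closed point: the number of the elements of the residue field. -/
noncomputable def norm {R : Type} [CommRing R] (y : MaximalSpectrum R) : ℕ := Nat.card (R ⧸ y.asIdeal)

/-- The trace on `H¹` of the `j`-th power of the Frobenius of the fibre of the curve `Y² = G(X)`: the number
`q_y ^ j - #(affine points of the fibre over the extension of degree j)`. -/
noncomputable def trace {R : Type} [CommRing R] (G : R[X]) (y : MaximalSpectrum R) (j : ℕ) : ℝ :=
  letI : Field (R ⧸ y.asIdeal) := Ideal.Quotient.field y.asIdeal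
  ((norm y ^ j : ℕ) : ℝ) - points (R ⧸ y.asIdeal) (G.map (Ideal.Quotient.mk y.asIdeal)) (norm y ^ j)

/-- The local factor `P_{y,1}(T)⁻¹ = det(1 - Frob_y T | H¹)⁻¹ = exp (∑_{j ≥ 1} t_j T ^ j / j)`, where `t_j` is the
trace of the `j`-th power of the Frobenius. -/
noncomputable def factor {R : Type} [CommRing R] (G : R[X]) (y : MaximalSpectrum R) (T : ℂ) : ℂ :=
  Complex.exp (∑' j : ℕ, (trace G y (j + 1) : ℂ) / ((j + 1 : ℕ) : ℂ) * T ^ (j + 1))

/-- Tate's conjecture for the curve `Y² = F(X)` over the field `K` with models of the dimension `n`, where the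
rank and the order of vanishing are `r`. -/
structure Conjecture (K : Type) [Field K] (n : ℕ) (F : K[X]) (r : ℕ) : Prop where
  /-- the rank of the group of the points of the Jacobian -/
  rank : ClassGroupHasRank F r
  /-- there are models -/
  model : ∃ (R : Subalgebra ℤ K) (G : R[X]), Algebra.FiniteType ℤ R ∧ IsFractionRing R K ∧ G.Monic ∧
    G.map (algebraMap R K) = F
  /-- every model has good reduction outside of the zeros of some `N ≠ 0` -/
  good : ∀ (R : Type) [CommRing R] [IsDomain R] [Algebra.FiniteType ℤ R] [Algebra R K]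
    [IsFractionRing R K] (G : R[X]), G.Monic → G.map (algebraMap R K) = F →
    ∃ N : R, N ≠ 0 ∧ ∀ y : MaximalSpectrum R, N ∉ y.asIdeal → (2 : R) ∉ y.asIdeal ∧
      (G.map (Ideal.Quotient.mk y.asIdeal)).Separable
  /-- for every model: the Euler product, its continuation and its order at `s = n` -/
  order : ∀ (R : Type) [CommRing R] [IsDomain R] [Algebra.FiniteType ℤ R] [Algebra R K]
    [IsFractionRing R K] (G : R[X]), G.Monic → G.map (algebraMap R K) = F → ∀ N : R, N ≠ 0 →
    ∃ Φ : ℂ → ℂ,
      (∀ s : ℂ, (n : ℝ) + 1 / 2 < s.re →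
        HasProd (fun y : {y : MaximalSpectrum R // N ∉ y.asIdeal} =>
          factor G y.1 ((norm y.1 : ℂ) ^ (-s))) (Φ s)) ∧
      DifferentiableOn ℂ Φ {s : ℂ | (n : ℝ) < s.re} ∧
      MeromorphicAt Φ (n : ℂ) ∧ meromorphicOrderAt Φ (n : ℂ) = ((r : ℤ) : WithTop ℤ)

open Pool.Agent.R410.NG Pool.Agent.R410.LW in
/-- passage from the asymptotic value to the statement -/
theorem conjecture_of {K : Type} [Field K] [CharZero K] (hK : FG K) {e : ℕ}
    (he : Algebra.trdeg ℚ K = e) {F : K[X]} (hF : F.Monic) (hodd : Odd F.natDegree)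
    (hs : F.Separable) {r : ℕ} (hr : ClassGroupHasRank F r)
    (hB : ∃ (B : Type) (_ : CommRing B) (_ : IsDomain B) (_ : Algebra B K) (_ : IsFractionRing B K)
      (_ : Algebra.FiniteType ℤ B) (g' : Unit → B[X]), (g' ()).map (algebraMap B K) = F ∧
      Asy (fun F _ _ => sT wtc g' 1 F) e (r : ℝ)) : Conjecture K (e + 1) F r := by
  classical
  refine ⟨hr, ?_, ?_, ?_⟩
  · obtain ⟨A, hA, hft, hfr⟩ := Pool.Agent.R410.BA.exists_ring hK F.coeffs
    obtain ⟨G, h1, h2, -⟩ := Pool.Agent.R410.BA.lift1 (A := A) hA hF
    exact ⟨A, G, hft, hfr, h2, h1⟩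
  · intro R _ _ _ _ _ G _ hGK
    exact Pool.Agent.R410.EP.exists_good (K := K) (by rw [hGK]; exact hs)
  · intro R _ _ _ _ _ G hG hGK N hN
    obtain ⟨B, i1, i2, i3, i4, i5, g', h1, h2⟩ := hB
    have hGo : Odd G.natDegree := by
      rw [← hG.natDegree_map (algebraMap R K), hGK]
      exact hodd
    have h2' : Asy (fun F _ _ => sT wtc g' 1 F) e (((r : ℤ) : ℤ) : ℝ) := by
      rw [Int.cast_natCast]
      exact h2
    obtain ⟨Φ, p1, p2, p3, p4⟩ := Pool.Agent.R410.EP.euler_any (K := K) he.le hG hGo (g' := g')
      (by rw [hGK, h1]) hN one_ne_zero h2'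
    have e1 : ((e + 1 : ℕ) : ℂ) = (e : ℂ) + 1 := by push_cast; rfl
    have e2 : ((e + 1 : ℕ) : ℝ) = (e : ℝ) + 1 := by push_cast; rfl
    rw [e1, e2]
    refine ⟨Φ, ?_, p2, p3, p4⟩
    intro s hs
    exact p1 s (by linarith)

section
variable {M K : Type} [Field M] [Field K] [Algebra M K] {g : ℕ} {a b c : M[X]} {w : K}

theorem curve_eq : curve a b c w = Pool.Agent.R410.CB.fq a b c w := by
  rw [Pool.Agent.R410.CB.fq_eq]
  rfl

theorem IsConicBundle.natDegree (h : IsConicBundle g a b c w) :
    (curve a b c w).natDegree = 2 * g + 1 := by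
  rw [curve_eq, Pool.Agent.R410.CB.deg_fq (by rw [h.deg_c]; exact h.deg_a)
    (by rw [h.deg_c]; exact h.deg_b), h.deg_c]

theorem IsConicBundle.isMonic (h : IsConicBundle g a b c w) : (curve a b c w).Monic := by
  rw [Monic, leadingCoeff, h.natDegree]
  unfold curve
  rw [coeff_add, coeff_add, coeff_C_mul, coeff_C_mul, coeff_map, coeff_map, coeff_map,
    coeff_eq_zero_of_natDegree_lt h.deg_a, coeff_eq_zero_of_natDegree_lt h.deg_b, ← h.deg_c]
  have : c.coeff c.natDegree = 1 := h.monic
  rw [this, map_one, map_zero, mul_zero, mul_zero, add_zero, add_zero]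

theorem isSplit_iff {δ : M[X]} : IsSplit a b c δ ↔ ∃ r s : M[X], Pool.Agent.R410.CB.Spl a b c δ r s := by
  constructor
  · rintro ⟨r, s, h1, h2, h3, h4⟩
    exact ⟨r, s, h1, h2, h3, h4⟩
  · rintro ⟨r, s, h⟩
    exact ⟨r, s, h.ha, h.hb, h.hc, h.ne⟩

theorem sigma_eq (a b c : M[X]) : sigma a b c = Nat.card (Pool.Agent.R410.NG.SplT a b c) :=
  Nat.card_congr (Equiv.subtypeEquivRight fun δ => by rw [isSplit_iff])

/-- the conic bundles whose discriminant has `r + 1` different irreducible factors -/
theorem exists_rank [CharZero M] (hw : Transcendental M w) (hK : IntermediateField.adjoin M {w} = ⊤)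
    (hg : 1 ≤ g) {r : ℕ} (hr : r < 4 * g) :
    ∃ a b c : M[X], IsConicBundle g a b c w ∧ rho a b c = r := by
  classical
  have hcK : CharZero K := charZero_of_injective_algebraMap (algebraMap M K).injective
  have hL : ∀ z : K, ∃ p q : M[X], aeval w q ≠ 0 ∧ z * aeval w q = aeval w p := fun z =>
    Pool.Agent.R410.NG.gen_line hK z hw
  rcases Nat.eq_zero_or_pos r with rfl | hr0
  · -- the curve `Y² = X ^ (2 g + 1) + w`
    have hcurve : curve (0 : M[X]) 1 (X ^ (2 * g + 1)) w = X ^ (2 * g + 1) + C w := by
      unfold curve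
      rw [Polynomial.map_zero, mul_zero, add_zero, Polynomial.map_one, mul_one, Polynomial.map_pow,
        Polynomial.map_X]
    have hw0 : w ≠ 0 := by
      rintro rfl
      exact hw (isAlgebraic_zero)
    refine ⟨0, 1, X ^ (2 * g + 1), ⟨monic_X_pow _, natDegree_X_pow _, ?_, ?_, ?_, ?_⟩, ?_⟩
    · rw [natDegree_zero]; omega
    · rw [natDegree_one]; omega
    · rw [one_pow, mul_zero, zero_mul, sub_zero]; exact one_ne_zero
    · rw [hcurve]
      have h1 : (X ^ (2 * g + 1) + C w : K[X]) = X ^ (2 * g + 1) - C (-w) := by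
        rw [C_neg, sub_neg_eq_add]
      rw [h1]
      exact separable_X_pow_sub_C _ (by exact_mod_cast (by omega : 2 * g + 1 ≠ 0)) (neg_ne_zero.2 hw0)
    · unfold rho
      rw [if_neg (fun h => h.1 rfl), Nat.sub_zero]
      unfold sigma
      have : IsEmpty {δ : M[X] // δ.Monic ∧ Irreducible δ ∧ IsSplit 0 1 (X ^ (2 * g + 1)) δ} := by
        refine ⟨?_⟩
        rintro ⟨δ, h1, h2, r, s, h3, h4, h5, h6⟩
        have h7 : δ ∣ r := by
          rw [zero_sub, dvd_neg] at h3
          exact h2.prime.dvd_of_dvd_pow h3
        have h8 : δ ∣ 1 := by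
          have h9 : (1 : M[X]) = (1 - 2 * r * s) + r * (2 * s) := by ring
          rw [h9]
          exact dvd_add h4 (h7.mul_right _)
        exact h2.not_isUnit (isUnit_of_dvd_one h8)
      exact Nat.card_of_isEmpty
  · obtain ⟨b, c, h1, h2, h3, h4⟩ := Pool.Agent.U621.JC.exists_bc hg
      (Pool.Agent.U621.JC.DD_monic (M := M) (4 * g) r)
      (Pool.Agent.U621.JC.DD_deg (by omega))
    have hns : ¬ IsSquare (b ^ 2 - 4 * c) := by
      rw [h4]
      exact Pool.Agent.U621.JC.DD_not_sq hr0
    have hirr := Pool.Agent.U621.JC.irr_curve hw hL h1 (by rw [h2]; exact h3) hns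
    refine ⟨1, b, c, ⟨h1, h2, ?_, h3, ?_, ?_⟩, ?_⟩
    · rw [natDegree_one]; omega
    · rw [mul_one]
      intro h0
      apply hns
      rw [h0]
      exact ⟨0, by rw [mul_zero]⟩
    · exact hirr.separable
    · unfold rho
      rw [if_pos ⟨one_ne_zero, IsSquare.one⟩]
      have h5 : sigma 1 b c = r + 1 := by
        rw [← Pool.Agent.U621.JC.DD_card (M := M) hr]
        unfold sigma
        refine Nat.card_congr (Equiv.subtypeEquivRight fun δ => ?_)
        rw [← h4]
        constructor
        · rintro ⟨h6, h7, p, s, h8, h9, h10, -⟩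
          refine ⟨h6, h7, ?_⟩
          have h11 : b ^ 2 - 4 * c = (b - 2 * p * s) * (b + 2 * p * s) - 4 * (c - s ^ 2) -
              (1 - p ^ 2) * (4 * s ^ 2) := by ring
          rw [h11]
          exact dvd_sub (dvd_sub (h9.mul_right _) (h10.mul_left _)) (h8.mul_right _)
        · rintro ⟨h6, h7, h8⟩
          refine ⟨h6, h7, 1, C (1 / 2) * b, ?_, ?_, ?_, ?_⟩
          · rw [one_pow, sub_self]; exact dvd_zero _
          · have h9 : (2 : M[X]) * C (1 / 2) = 1 := by
              rw [← C_ofNat, ← C_mul]
              have : (OfNat.ofNat 2 : M) * (1 / 2) = 1 := by field_simp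
              rw [this, C_1]
            have h10 : b - 2 * 1 * (C (1 / 2) * b) = 0 := by
              linear_combination (-b) * h9
            rw [h10]
            exact dvd_zero _
          · have h9 : (4 : M[X]) * C (1 / 2) ^ 2 = 1 := by
              rw [← C_ofNat, ← C_pow, ← C_mul]
              have : (OfNat.ofNat 4 : M) * (1 / 2) ^ 2 = 1 := by norm_num
              rw [this, C_1]
            have h10 : c - (C (1 / 2) * b) ^ 2 = (b ^ 2 - 4 * c) * (-C (1 / 2) ^ 2) := by
              linear_combination (-c) * h9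
            rw [h10]
            exact h8.mul_right _
          · rintro ⟨h9, -⟩
            exact h7.not_isUnit (isUnit_of_dvd_one h9)
      rw [h5]
      omega

end

/-- **The rank part of Tate's conjecture for the Jacobians of the hyperelliptic curves
`Y² = a(X) w² + b(X) w + c(X)` of every genus `g` over `K = M(w)`, for an arbitrary finitely generated field `M`
of characteristic zero; all the ranks up to `4g - 1` occur.** -/
theorem result {M : Type} [Field M] [CharZero M]
    (hM : ∃ S : Finset M, Subfield.closure (S : Set M) = ⊤) {d : ℕ} (hd : Algebra.trdeg ℚ M = d)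
    {K : Type} [Field K] [CharZero K] [Algebra M K] {w : K} (hw : Transcendental M w)
    (hK : IntermediateField.adjoin M {w} = ⊤) (g : ℕ) :
    Algebra.trdeg ℚ K = (d + 1 : ℕ) ∧
    -- the conjecture
    (∀ a b c : M[X], IsConicBundle g a b c w →
      (curve a b c w).Monic ∧ (curve a b c w).natDegree = 2 * g + 1 ∧
      Conjecture K (d + 2) (curve a b c w) (rho a b c)) ∧
    -- all the ranks up to `4g - 1` occur
    (1 ≤ g → ∀ r < 4 * g, ∃ a b c : M[X], IsConicBundle g a b c w ∧ rho a b c = r) := by
  classical
  have htrK := Pool.Agent.R410.NG.trdeg_line hd hw hK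
  have hFGK : Pool.Agent.R410.LW.FG K := Pool.Agent.R410.NG.fg_line hM hK
  refine ⟨htrK, ?_, fun hg r hr => exists_rank hw hK hg hr⟩
  · intro a b c h
    refine ⟨h.isMonic, h.natDegree, ?_⟩
    have hodd : Odd c.natDegree := by rw [h.deg_c]; exact ⟨g, rfl⟩
    have hac : a.natDegree < c.natDegree := by rw [h.deg_c]; exact h.deg_a
    have hbc : b.natDegree < c.natDegree := by rw [h.deg_c]; exact h.deg_b
    have hsq : Squarefree (Pool.Agent.R410.CB.fq a b c w) := by
      rw [← curve_eq]
      exact h.sep.squarefree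
    obtain ⟨h1, h2⟩ := Pool.Agent.R410.NG.rank_cb' hw hK hodd hac hbc hsq h.disc
    obtain ⟨B, i1, i2, i3, i4, i5, g', h3, h4⟩ := Pool.Agent.R410.EP.model_cb hM hd hw hK h.disc
    have hρ : (rho a b c : ℝ) = (((Nat.card (Pool.Agent.R410.NG.SplT a b c) : ℤ) -
        if a ≠ 0 ∧ IsSquare a then 1 else 0 : ℤ) : ℝ) := by
      unfold rho
      rw [sigma_eq]
      by_cases h : a ≠ 0 ∧ IsSquare a
      · rw [if_pos h, if_pos h, Nat.cast_sub (h2 h)]
        push_cast
        rfl
      · rw [if_neg h, if_neg h, Nat.sub_zero]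
        push_cast
        ring
    refine conjecture_of hFGK htrK h.isMonic (by rw [h.natDegree]; exact ⟨g, rfl⟩) h.sep ?_ ?_
    · unfold ClassGroupHasRank rho
      rw [sigma_eq, curve_eq]
      exact h1
    · refine ⟨B, i1, i2, i3, i4, i5, g', ?_, ?_⟩
      · rw [h3, curve_eq]
      · rw [hρ]
        exact h4

end Pool.Agent.Results.MP_9faec4_nt.HyperellipticJacobians
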