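import Pool.Agent.U965.J.R

/-!
Hyperelliptic Jacobians of every dimension over function fields whose rank is equal to the order of
vanishing of the `L`-function.
-/

set_option autoImplicit false
set_option linter.all false
set_option maxHeartbeats 4000000

open Polynomial

namespace Pool.Agent.Results.MP_9faec4_nt.JacobiansOfKummerCovers

open Pool.Agent.W343.BSD (IsCurveField constDeg)
open Pool.Agent.W343.BSD.S (classNumber deg)
open Pool.Agent.W313.Hyp (LOutside)
open Pool.Agent.U965.J (lucas FP IsScale)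

section defs

variable {k K : Type} [Field k] [Field K] [Algebra k K]

/-- The rank of the Jacobian of `y ^ 2 = F(x)` over `K` is at least `r`. For `F` of odd degree the
complete curve has one point more than the affine curve, which is rational, so that the class group
of the coordinate ring of the affine curve is the group of the rational points of the Jacobian. -/
def RankAtLeast (F : K[X]) (r : ℕ) : Prop :=
  ∃ _ : IsDedekindDomain (AdjoinRoot (X ^ 2 - C F : K[X][X])),
    (r : Cardinal) ≤ Module.rank ℤ (Additive (ClassGroup (AdjoinRoot (X ^ 2 - C F : K[X][X]))))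

/-- If the `L`-function of the Jacobian of `y ^ 2 = F(x)` without the Euler factors at the places in
`A` is `(1 - q T) ^ m G(T)` with an integral polynomial `G`, then `m ≤ r`: the order of vanishing at
`s = 1` is at most `r`. -/
def OrderAtMost (A : Finset (FF.Place k K)) (u : FF.Place k K → K) (F : K[X]) (r : ℕ) : Prop :=
  ∀ (m : ℕ) (G : ℤ[X]), LOutside A F u (fun _ => 0) =
    (((1 - C (Nat.card k : ℤ) * X) ^ m * G : ℤ[X]) : PowerSeries ℤ) → m ≤ r

/-- `x` has a zero of odd order. -/
def HasOddZero (k : Type) {K : Type} [Field k] [Field K] [Algebra k K] (x : K) : Prop :=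
  ∃ v : FF.Place k K, 0 < v.ord x ∧ Odd (v.ord x)

/-- `x` has exactly one zero, of odd order, at a place of odd degree. -/
def OneZero (k : Type) {K : Type} [Field k] [Field K] [Algebra k K] (x : K) : Prop :=
  ∃ v : FF.Place k K, 0 < v.ord x ∧ Odd (v.ord x) ∧ Odd (deg v) ∧
    ∀ w : FF.Place k K, 0 < w.ord x → w = v

open Classical in
/-- The sum of `2 ^ v(deg P)` over the zeros `P` of `x`, where `v` is the `2`-adic valuation. -/
noncomputable def zeroSum (k : Type) {K : Type} [Field k] [Field K] [Algebra k K] (x : K) : ℕ :=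
  ∑ᶠ v : FF.Place k K, if 0 < v.ord x then 2 ^ padicValNat 2 (deg v) else 0

/-- The function `f - T_i`, where `T_i = 1 / (1 + ζ ^ (i + 1)) ^ n`, `n = 2 g + 1`, for `i < g`. -/
noncomputable def shifted (g : ℕ) (ζ : k) (f : K) (i : ℕ) : K :=
  f - algebraMap k K (((1 + ζ ^ (i + 1))⁻¹) ^ (2 * g + 1))

/-- The field `k` has characteristic not two and contains a primitive `n`-th root of unity `ζ`,
`n = 2 g + 1`; `K` is the function field of a curve over `k`, `f` in `K` is not constant, and
`L = K(s)`, `s ^ n = f`, has degree `n` over `K`, field of constants `k` and odd class number. -/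
structure IsSetting (g : ℕ) (ζ : k) (f : K) {L : Type} [Field L] [Algebra k L] [Algebra K L]
    (s : L) : Prop where
  two_ne : (2 : k) ≠ 0
  root : IsPrimitiveRoot ζ (2 * g + 1)
  curve : IsCurveField k K
  transcendental : Transcendental k f
  pow : s ^ (2 * g + 1) = algebraMap K L f
  gen : IntermediateField.adjoin K {s} = ⊤
  degree : Module.finrank K L = 2 * g + 1
  constants : constDeg k L = 1
  odd : Odd (classNumber k L)

/-- None of the `T_i / c ^ n`, `i < g`, is an `l`-th power in `k`. -/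
def NoPowers (l g : ℕ) (ζ c : k) : Prop :=
  ∀ i < g, ∀ b : k, b ^ l ≠ ((1 + ζ ^ (i + 1))⁻¹) ^ (2 * g + 1) / c ^ (2 * g + 1)

/-- The rational function `c ^ n t ^ N γ ^ (2 n)`, `n = 2 g + 1`. -/
noncomputable def fn (g N : ℕ) (c : k) (γ : RatFunc k) : RatFunc k :=
  algebraMap k (RatFunc k) (c ^ (2 * g + 1)) * RatFunc.X ^ N * γ ^ (2 * (2 * g + 1))

/-- Scalings exist, and for all of them the rank of the Jacobian of `y ^ 2 = F_f(x)` is at least `g`
and the order of vanishing of its `L`-function is at most `g`. -/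
def RankAndOrder (g : ℕ) (f : K) : Prop :=
  RankAtLeast (FP (2 * g + 1) f) g ∧
  (∃ (A : Finset (FF.Place k K)) (u : FF.Place k K → K), IsScale (2 * g + 1) f A u) ∧
  ∀ (A : Finset (FF.Place k K)) (u : FF.Place k K → K), IsScale (2 * g + 1) f A u →
    OrderAtMost A u (FP (2 * g + 1) f) g

end defs

section proofs

variable {k K : Type} [Field k] [Finite k] [Field K] [Algebra k K]

theorem rank_part {L : Type} [Field L] [Algebra k L] [Algebra K L] [IsScalarTower k K L] {g : ℕ}
    {ζ : k} {f : K} {s : L} (h : IsSetting g ζ f s) (I : Finset ℕ)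
    (hI : ∀ i ∈ I, i < g ∧ HasOddZero k (shifted g ζ f i)) :
    RankAtLeast (FP (2 * g + 1) f) I.card := by
  haveI hFF : FF.IsFF k K := ⟨h.curve.essFiniteType, h.curve.trdeg_eq_one⟩
  obtain ⟨hfd, -⟩ := Pool.Agent.U965.J.minpoly_s (by omega) h.pow h.gen h.degree
  haveI hFFL : FF.IsFF k L := Pool.Agent.W343.BSD.isFF_of_finite (K := K)
  exact Pool.Agent.U965.J.lower h.two_ne h.root h.transcendental h.pow h.gen h.degree I hI

theorem order_part {L : Type} [Field L] [Algebra k L] [Algebra K L] [IsScalarTower k K L] {g : ℕ}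
    {ζ : k} {f : K} {s : L} (h : IsSetting g ζ f s) {A : Finset (FF.Place k K)}
    {u : FF.Place k K → K} (hAu : IsScale (2 * g + 1) f A u) :
    OrderAtMost A u (FP (2 * g + 1) f) (∑ i ∈ Finset.range g, zeroSum k (shifted g ζ f i)) := by
  intro m G hG
  have h1 := Pool.Agent.U965.J.upper h.two_ne h.curve h.root h.transcendental h.constants h.odd
    h.pow h.gen h.degree A u hAu m G 1 (by rw [Polynomial.map_one]; exact one_ne_zero) (by
      unfold Pool.Agent.W313.Hyp.HasOrder
      rw [Polynomial.coe_one, mul_one]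
      exact hG)
  have h5 : Pool.Agent.Results.MP_60d5ce_nt.HyperellipticTwoAdic.muTwo (1 : ℤ[X]) = 0 :=
    Pool.Agent.Results.MP_60d5ce_nt.HyperellipticTwoAdic.muTwo_odd (h := 1)
      (by rw [eval_one]; rfl) odd_one
  rw [h5, add_zero] at h1
  exact h1

theorem zeroSum_one {x : K} (h : OneZero k x) : zeroSum k x = 1 := by
  classical
  obtain ⟨v, h1, -, h3, h4⟩ := h
  unfold zeroSum
  rw [finsum_eq_single _ v]
  · rw [if_pos h1, padicValNat.eq_zero_of_not_dvd, pow_zero]
    rintro ⟨c, hc⟩
    obtain ⟨d, hd⟩ := h3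
    omega
  · intro w hw
    rw [if_neg]
    intro h5
    exact hw (h4 w h5)

theorem equal {L : Type} [Field L] [Algebra k L] [Algebra K L] [IsScalarTower k K L] {g : ℕ}
    {ζ : k} {f : K} {s : L} (h : IsSetting g ζ f s)
    (hz : ∀ i < g, OneZero k (shifted g ζ f i)) :
    RankAtLeast (FP (2 * g + 1) f) g ∧
    ∀ (A : Finset (FF.Place k K)) (u : FF.Place k K → K), IsScale (2 * g + 1) f A u →
      OrderAtMost A u (FP (2 * g + 1) f) g := by
  classical
  constructor
  · have h1 := rank_part h (Finset.range g) (fun i hi => by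
      have hi' := Finset.mem_range.1 hi
      obtain ⟨v, hv, hv2, -⟩ := hz i hi'
      exact ⟨hi', v, hv, hv2⟩)
    rwa [Finset.card_range] at h1
  · intro A u hAu
    have h2 := order_part h hAu
    rwa [Finset.sum_congr rfl (fun i hi => zeroSum_one (hz i (Finset.mem_range.1 hi))),
      Finset.sum_const, Finset.card_range, smul_eq_mul, mul_one] at h2

theorem setting_rat {g N : ℕ} (hg : 0 < g) {ζ : k} (h2 : (2 : k) ≠ 0)
    (hζ : IsPrimitiveRoot ζ (2 * g + 1)) (hN : Nat.Coprime N (2 * g + 1)) {c : k} (hc : c ≠ 0)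
    {γ : RatFunc k} (hγ : γ ≠ 0) :
    ∃ s : Pool.Agent.U965.J.Rt g k, IsSetting g ζ (fn g N c γ) s := by
  have hN' : IsCoprime (N : ℤ) ((2 * g + 1 : ℕ) : ℤ) := Nat.isCoprime_iff_coprime.2 hN
  obtain ⟨s, hs, hgen⟩ := Pool.Agent.U965.J.exists_root (g := g) hN' hc hγ
  obtain ⟨-, hcd, hcl⟩ := Pool.Agent.W309.RK.sb k
  exact ⟨s, h2, hζ, Pool.Agent.TH958.T4.isCurveField_rat,
    Pool.Agent.U965.J.transc_fun (by omega) hN' (pow_ne_zero _ hc) hγ, hs, hgen,
    Pool.Agent.U965.J.finrank_rt g k, hcd, hcl⟩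

theorem rational {g N : ℕ} (hg : 0 < g) {ζ : k} (h2 : (2 : k) ≠ 0)
    (hζ : IsPrimitiveRoot ζ (2 * g + 1)) (hN : Nat.Coprime N (2 * g + 1)) {c : k} (hc : c ≠ 0)
    {γ : RatFunc k} (hγ : γ ≠ 0) (hz : ∀ i < g, OneZero k (shifted g ζ (fn g N c γ) i)) :
    RankAndOrder (k := k) g (fn g N c γ) := by
  have hN' : IsCoprime (N : ℤ) ((2 * g + 1 : ℕ) : ℤ) := Nat.isCoprime_iff_coprime.2 hN
  obtain ⟨s, hs⟩ := setting_rat hg h2 hζ hN hc hγ
  obtain ⟨h3, h4⟩ := equal hs hz
  exact ⟨h3, Pool.Agent.U965.J.exists_scale (by omega) hN' (pow_ne_zero _ hc) hγ, h4⟩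

theorem oneZero_irr {P : k[X]} (hP : Irreducible P) (hodd : Odd P.natDegree) :
    OneZero k (algebraMap k[X] (RatFunc k) P) := by
  obtain ⟨v, h1, h2, h3⟩ := Pool.Agent.U965.J.one_zero_simple hP
  exact ⟨v, by rw [show v.ord (algebraMap k[X] (RatFunc k) P) = 1 from h1]; norm_num,
    by rw [show v.ord (algebraMap k[X] (RatFunc k) P) = 1 from h1]; exact odd_one,
    by rw [h2]; exact hodd, h3⟩

theorem tower {g l : ℕ} (hg : 0 < g) {ζ : k} (h2 : (2 : k) ≠ 0)
    (hζ : IsPrimitiveRoot ζ (2 * g + 1)) (hl : l.Prime) (hl2 : l ≠ 2)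
    (hln : ¬ l ∣ 2 * g + 1) {c : k} (hc : c ≠ 0) (hb : NoPowers l g ζ c) (j : ℕ) :
      (∀ i < g, OneZero k (shifted g ζ (fn g (l ^ j) c 1) i)) ∧
      RankAndOrder (k := k) g (fn g (l ^ j) c 1) := by
  have hN : Nat.Coprime (l ^ j) (2 * g + 1) :=
    Nat.Coprime.pow_left j ((Nat.Prime.coprime_iff_not_dvd hl).2 hln)
  have hz : ∀ i < g, OneZero k (shifted g ζ (fn g (l ^ j) c 1) i) := by
    intro i hi
    have hirr := Pool.Agent.U965.J.irr_shift hl hl2 j (pow_ne_zero (2 * g + 1) hc) (hb i hi)
    have hdeg : (C (c ^ (2 * g + 1)) * X ^ l ^ j -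
        C (((1 + ζ ^ (i + 1))⁻¹) ^ (2 * g + 1)) : k[X]).natDegree = l ^ j := by
      rw [natDegree_sub_C, natDegree_C_mul (pow_ne_zero _ hc), natDegree_X_pow]
    have h6 := oneZero_irr hirr (by
      rw [hdeg]
      exact (hl.odd_of_ne_two hl2).pow)
    have e : algebraMap k[X] (RatFunc k)
        (C (c ^ (2 * g + 1)) * X ^ l ^ j - C (((1 + ζ ^ (i + 1))⁻¹) ^ (2 * g + 1))) =
        shifted g ζ (fn g (l ^ j) c 1) i := by
      unfold shifted fn
      rw [map_sub, map_mul, map_pow (algebraMap k[X] (RatFunc k)) X, RatFunc.algebraMap_X, one_pow,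
        mul_one]
      rfl
    rw [e] at h6
    exact h6
  exact ⟨hz, rational hg h2 hζ hN hc one_ne_zero hz⟩

end proofs

/-- **Hyperelliptic Jacobians of every dimension whose rank is the order of vanishing.**

Let `k` be a finite field of odd characteristic with `q` elements, `n = 2 g + 1` a divisor of `q - 1`,
`ζ` a primitive `n`-th root of unity in `k`, `K` the function field of a curve over `k`, `f` in `K` not
constant, `C_f` the hyperelliptic curve `y ^ 2 = F_f(x)`, `F_f(x) = x ^ n - E_n(x) f + f ^ 2`, of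
genus `g` over `K`, and `J_f` its Jacobian, of dimension `g`. Here `E_0 = 2`, `E_1 = 1` and
`E_{m+2} = E_{m+1} - x E_m`, so that `E_n(u v) = u ^ n + v ^ n` if `u + v = 1`, and `F_f(x)` is the
product of the `x - (s - s ^ 2)` over the `n`-th roots `s` of `f`. Put
`T_i = 1 / (1 + ζ ^ (i + 1)) ^ n` for `i < g`; the points
`(ζ ^ (i + 1) / (1 + ζ ^ (i + 1)) ^ 2, f - T_i)` lie on the curve.

Suppose that `L = K(s)`, `s ^ n = f`, is an extension of degree `n` with field of constants `k` and
odd class number, and that at every place the order of `f` is prime to `n`, or divisible by `n` and,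
if it is positive, by `2 n`. Then the rank of `J_f(K)` is at least the number of the `i` for which
`f - T_i` has a zero of odd order, and the order of vanishing of the `L`-function of `J_f` at `s = 1`
is at most the sum over `i` of the sum of `2 ^ v(deg P)` over the zeros `P` of `f - T_i`. If every
`f - T_i` has exactly one zero, of odd order and odd degree, then the rank is at least `g` and the
order at most `g`; by Tate's inequality they are both equal to `g`. (At the places where the order of
`f` is prime to `n` the inertia invariants of the Tate module are zero and the Euler factor is one; at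
the other places `u v` gives a semistable model.)

This applies to `K = k(t)` and `f = c ^ n t ^ N γ ^ (2 n)` for `N` prime to `n` and all nonzero `c`
in `k` and `γ` in `k(t)`. If moreover `l` is an odd prime not dividing `n` and none of the
`T_i / c ^ n` is an `l`-th power in `k`, then it applies to `f = c ^ n t ^ (l ^ j)` for all `j`, so that
the Jacobian of `y ^ 2 = F_f(x)`, `f = c ^ n t`, has rank and order equal to `g` over all fields
`k(t ^ (1 / l ^ j))`. Such `c` exist if `l > g` divides `q - 1`. -/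
theorem result :
    (∀ (k K L : Type) [Field k] [Finite k] [Field K] [Algebra k K] [Field L] [Algebra k L]
      [Algebra K L] [IsScalarTower k K L] (g : ℕ) (ζ : k) (f : K) (s : L), IsSetting g ζ f s →
      (∀ I : Finset ℕ, (∀ i ∈ I, i < g ∧ HasOddZero k (shifted g ζ f i)) →
        RankAtLeast (FP (2 * g + 1) f) I.card) ∧
      (∀ (A : Finset (FF.Place k K)) (u : FF.Place k K → K), IsScale (2 * g + 1) f A u →
        OrderAtMost A u (FP (2 * g + 1) f) (∑ i ∈ Finset.range g, zeroSum k (shifted g ζ f i))) ∧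
      ((∀ i < g, OneZero k (shifted g ζ f i)) → RankAtLeast (FP (2 * g + 1) f) g ∧
        ∀ (A : Finset (FF.Place k K)) (u : FF.Place k K → K), IsScale (2 * g + 1) f A u →
          OrderAtMost A u (FP (2 * g + 1) f) g)) ∧
    (∀ (k : Type) [Field k] [Finite k] (g N : ℕ) (ζ c : k) (γ : RatFunc k), 0 < g →
      (2 : k) ≠ 0 → IsPrimitiveRoot ζ (2 * g + 1) → Nat.Coprime N (2 * g + 1) → c ≠ 0 → γ ≠ 0 →
      (∀ i < g, OneZero k (shifted g ζ (fn g N c γ) i)) →
      RankAndOrder (k := k) g (fn g N c γ)) ∧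
    (∀ (k : Type) [Field k] [Finite k] (g l : ℕ) (ζ : k), 0 < g →
      (2 : k) ≠ 0 → IsPrimitiveRoot ζ (2 * g + 1) → l.Prime → l ≠ 2 → ¬ l ∣ 2 * g + 1 →
      (∀ c : k, c ≠ 0 → NoPowers l g ζ c → ∀ j : ℕ,
        (∀ i < g, OneZero k (shifted g ζ (fn g (l ^ j) c 1) i)) ∧
        RankAndOrder (k := k) g (fn g (l ^ j) c 1)) ∧
      (g < l → l ∣ Nat.card k - 1 → ∃ c : k, c ≠ 0 ∧ NoPowers l g ζ c)) := by
  refine ⟨?_, ?_, ?_⟩
  · intro k K L _ _ _ _ _ _ _ _ g ζ f s h
    exact ⟨fun I hI => rank_part h I hI, fun A u hAu => order_part h hAu, fun hz => equal h hz⟩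
  · intro k _ _ g N ζ c γ hg h2 hζ hN hc hγ hz
    exact rational hg h2 hζ hN hc hγ hz
  · intro k _ _ g l ζ hg h2 hζ hl hl2 hln
    exact ⟨fun c hc hb j => tower hg h2 hζ hl hl2 hln hc hb j, fun hlg hd =>
      Pool.Agent.U965.J.exists_const h2 hζ hl hlg hln hd⟩

end Pool.Agent.Results.MP_9faec4_nt.JacobiansOfKummerCovers
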