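import Pool.Agent.Results.MP_60d5ce_nt.SuperellipticPencils
import Pool.Agent.U695.SL.Fin
import Pool.Agent.U695.SL.Cnt

/-!
# The twists of superelliptic Jacobians over `k(t)`: rank zero for almost all of `ℓ` constant twists

Let `ℓ` be an odd prime, `k` a finite field with `q` elements, `q` congruent to one modulo `ℓ`, and `e`
in `k` not an `ℓ`-th power. Let `f` be monic over `k` of degree `n` congruent to `- 1` modulo `ℓ`, and
`h` in `k[t]`. The twists of degree `ℓ` of the curve `y ^ ℓ = (x - h(t)) f(x)` over `K = k(t)` are the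
curves `y ^ ℓ = D(t) (x - h(t)) f(x)`; here `D` runs over the polynomials `e ^ j D_1`, `0 ≤ j < ℓ`, `D_1`
monic without `ℓ`-th powers of irreducible polynomials. Let `J_D` be the Jacobian, of dimension
`(ℓ - 1) (n - 1) / 2`.

The starting file `SuperellipticPencils` (for MP_60d5ce_nt) bounds the sum of the orders of
vanishing at `s = 1` of the `ℓ` functions `L(J_{e ^ j D}, s)` by `ℓ - 1` times a number `bound`, and shows
that at least one of them does not vanish if `bound = 1`. Here: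

* The group of `ℓ`-th roots of unity acts on `J_D`, and `L(J_D, s)` is the product of `ℓ - 1` components
  `L(χ, D, s)`, with Euler factors `1 - χ(D(t) (x - h(t)) f(x)) T ^ deg`, for the characters `χ` of
  order `ℓ`. All components vanish at `s = 1` to the same order, so the order of `L(J_D, s)` is
  `ℓ - 1` times the order of each component.
* For every `χ` the sum of the orders of the components of the `ℓ` constant twists is at most `bound`.
  So if `bound = 1` then `L(J_{e ^ j D}, s)` does not vanish at `s = 1` for ALL BUT AT MOST ONE of the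
  `ℓ` values of `j`. By Tate's inequality and the theorem of Kato and Trihan these Jacobians have
  rank zero and the full Birch and Swinnerton-Dyer conjecture holds for them.
* Averages. Let `h = t` and `f` irreducible. Over all monic `D` of degree `d` prime to `f` without
  `ℓ`-th powers, the average of the sum of the orders of the components of the `ℓ` constant
  twists is at most `1 + 2 ∑_{e | n, e > 1} (φ(e) / e) B(d / e)`, `B(t) = ∑_{j ≤ t} ℓ ^ v(j) / j`, and the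
  proportion of the `D` for which it is greater than one is at most `2 ∑_{p | n} H(d / p) / p`,
  `H(t) = ∑_{j ≤ t} 1 / j`.
* The large genus limit. For every `A` and `δ > 0`: if `n` is prime and large, then for all `ℓ`, `k`, `f`
  and all `d ≤ n ^ A` the function `L(J_D, s)` vanishes at `s = 1` for a proportion of at most
  `1 / ℓ + δ` of all the twists of degree `d` (prime to `f`). So Tate's form of the conjecture of Birch and
  Swinnerton-Dyer holds, with rank zero, for a proportion of at least `1 - 1 / ℓ - δ` of all the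
  twists; the bound `N` for `n` does not depend on `ℓ`, so that the proportion tends to one if `ℓ` does
  to infinity too.
-/

set_option autoImplicit false
set_option maxHeartbeats 1000000

open Polynomial
open scoped Classical

namespace Pool.Agent.Results.MP_9faec4_nt.SuperellipticLargeGenus

open Pool.Agent.Results.MP_60d5ce_nt.SuperellipticPencils
  (ClosedPt Res value constants fibre PlanePt planeEquiv IsAdmissible IsTwist primes lPart bound
    Lfun)

section generic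

/-- The power residue symbol of order `ℓ` of `g` at the closed point `Q` of the affine line over the
finite field `F`, with values in the complex numbers: it is `0` if `g` vanishes at `Q`, and `ζ ^ i` if
`g ^ ((N - 1) / ℓ)` has the value `ω ^ i` at `Q`; here `N` is the number of elements of the residue field
of `Q`, and `ω` in `F` and `ζ` are primitive `ℓ`-th roots of unity. -/
noncomputable def symbol {F : Type} [Field F] (ℓ : ℕ) (ω : F) (ζ : ℂ) (g Q : F[X]) : ℂ :=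
  ∑ i ∈ Finset.range ℓ,
    if Q ∣ g ^ ((Nat.card F ^ Q.natDegree - 1) / ℓ) - C (ω ^ i) then ζ ^ i else 0

/-- The Euler factor `1 - χ(g) T ^ n` at the closed point `Q`, of degree `n`. -/
noncomputable def factor {F : Type} [Field F] (ℓ : ℕ) (ω : F) (ζ : ℂ) (g Q : F[X]) (n : ℕ) :
    PowerSeries ℂ :=
  1 - PowerSeries.C (symbol ℓ ω ζ g Q) * PowerSeries.X ^ n

/-- The Euler product: its coefficient of index `n` is that of the product of the factors of degree
at most `n`. -/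
noncomputable def eulerProduct {ι : Type} (d : ι → ℕ) (f : ι → PowerSeries ℂ) : PowerSeries ℂ :=
  PowerSeries.mk fun n => PowerSeries.coeff n (∏ᶠ (i : ι) (_ : d i ≤ n), f i)

end generic

section defs

variable {k : Type} [Field k]

/-- The product of the factors for `g` over the closed points of the affine line. -/
noncomputable def lineProduct (ℓ : ℕ) (ω : k) (ζ : ℂ) (g : k[X]) : PowerSeries ℂ :=
  eulerProduct (fun Q : ClosedPt k => 1 * Q.1.natDegree)
    (fun Q => factor ℓ ω ζ g Q.1 (1 * Q.1.natDegree))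

/-- The component of the `L`-function, in the variable `T = q ^ (-s)`, of the Jacobian of the curve
`y ^ ℓ = D(t) (x - h(t)) f(x)` over `k(t)`, for the character of order `ℓ` with the value `ζ` at `e`
(`e` in `k` not an `ℓ`-th power): the product of the factors of the closed points of the
`(t, x)`-plane with `D(t) ≠ 0`, times the product of the factors of the points `x = ∞` of the fibres,
times the factor at `t = ∞` (which is one unless `ℓ` divides `deg h + deg D`). -/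
noncomputable def component (ℓ : ℕ) (e : k) (ζ : ℂ) (f h D : k[X]) : PowerSeries ℂ :=
  eulerProduct (fun z : PlanePt D => z.deg)
      (fun z => factor ℓ (constants z.place (e ^ ((Nat.card k - 1) / ℓ))) ζ (fibre f h D z.place)
        z.point.1 z.deg) *
    lineProduct ℓ (e ^ ((Nat.card k - 1) / ℓ)) ζ D *
    (if ℓ ∣ h.natDegree + D.natDegree then
      lineProduct ℓ (e ^ ((Nat.card k - 1) / ℓ)) ζ (C (-(h.leadingCoeff * D.leadingCoeff)) * f)
      else 1)

/-- The component is `(1 - q T) ^ m G(T)` with a polynomial `G`: it vanishes to order at least `m` at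
`s = 1`. -/
def VanishesTo (ℓ : ℕ) (e : k) (ζ : ℂ) (f h D : k[X]) (m : ℕ) : Prop :=
  ∃ G : ℂ[X], component ℓ e ζ f h D =
    (((1 - C (Nat.card k : ℂ) * X) ^ m * G : ℂ[X]) : PowerSeries ℂ)

/-- The set of the `j < ℓ` for which the component of the twist by `e ^ j D` vanishes at `s = 1`. -/
noncomputable def vanishing (ℓ : ℕ) (e : k) (ζ : ℂ) (f h D : k[X]) : Finset ℕ :=
  (Finset.range ℓ).filter fun j => VanishesTo ℓ e ζ f h (C (e ^ j) * D) 1

/-- The sum of the orders of vanishing at `s = 1` of the components of the twists by `e ^ j D`,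
`j < ℓ`: the greatest sum of numbers `r j` such that the component of the twist by `e ^ j D` vanishes
to order at least `r j`. -/
noncomputable def totalOrder (ℓ : ℕ) (e : k) (ζ : ℂ) (f h D : k[X]) : ℕ :=
  sSup {s | ∃ r : ℕ → ℕ, (∀ j < ℓ, VanishesTo ℓ e ζ f h (C (e ^ j) * D) (r j)) ∧
    s = ∑ j ∈ Finset.range ℓ, r j}

/-- The monic polynomials of degree `d`, prime to `f`, not divisible by the `ℓ`-th power of an
irreducible polynomial. -/
noncomputable def family [Finite k] (ℓ : ℕ) (f : k[X]) (d : ℕ) : Finset k[X] :=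
  Pool.Agent.U695.SL.Fl ℓ f d

/-- `H(t) = ∑_{j ≤ t} 1 / j` -/
noncomputable def harmonicSum (t : ℕ) : ℝ := ∑ j ∈ Finset.range t, 1 / ((j + 1 : ℕ) : ℝ)

/-- `B(t) = ∑_{j ≤ t} ℓ ^ v(j) / j`, `ℓ ^ v(j)` the greatest power of `ℓ` dividing `j` -/
noncomputable def adicSum (ℓ t : ℕ) : ℝ :=
  ∑ j ∈ Finset.range t, (lPart ℓ (j + 1) : ℝ) / ((j + 1 : ℕ) : ℝ)

end defs

section proof

variable {k : Type} [Field k] {ℓ : ℕ} {e : k} {ζ : ℂ} {f h D : k[X]}

theorem component_eq (ℓ : ℕ) (e : k) (ζ : ℂ) (f h D : k[X]) :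
    component ℓ e ζ f h D =
      Pool.Agent.U695.SL.LX ℓ (e ^ ((Nat.card k - 1) / ℓ)) ζ f h D := by
  unfold component Pool.Agent.U695.SL.LX
  congr 1
  congr 1
  unfold Pool.Agent.U695.SL.LFx eulerProduct Pool.Agent.W343.BSD.eulerProd
  ext n
  rw [PowerSeries.coeff_mk, PowerSeries.coeff_mk]
  congr 1
  exact (finprod_comp_equiv (planeEquiv D)
    (f := fun z : PlanePt D => ∏ᶠ (_ : z.deg ≤ n),
      factor ℓ (constants z.place (e ^ ((Nat.card k - 1) / ℓ))) ζ (fibre f h D z.place)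
        z.point.1 z.deg)).symm

theorem vanishesTo_iff (ℓ : ℕ) (e : k) (ζ : ℂ) (f h D : k[X]) (m : ℕ) :
    VanishesTo ℓ e ζ f h D m ↔
      Pool.Agent.U695.SL.VX ℓ (e ^ ((Nat.card k - 1) / ℓ)) ζ f h D m := by
  unfold VanishesTo Pool.Agent.U695.SL.VX
  rw [component_eq]

theorem primes_spec {D P : k[X]} (hP : P ∈ primes D) : P.Monic ∧ Irreducible P ∧ P ∣ D := by
  unfold primes at hP
  rw [Multiset.mem_toFinset] at hP
  have h1 := UniqueFactorizationMonoid.irreducible_of_normalized_factor P hP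
  refine ⟨?_, h1, UniqueFactorizationMonoid.dvd_of_mem_normalizedFactors hP⟩
  have h3 := UniqueFactorizationMonoid.normalize_normalized_factor P hP
  rw [← h3]
  exact monic_normalize h1.ne_zero

/-- the bound for irreducible `f` and `h = t`, as a natural number -/
noncomputable def bd (ℓ n : ℕ) (D : k[X]) : ℕ :=
  1 + ∑ P ∈ primes D, (Nat.gcd P.natDegree n - 1) * Pool.Agent.U695.SL.lp ℓ P.natDegree

theorem bound_eq (hℓ : ℓ.Prime) (hf : IsAdmissible ℓ f X) (hfi : Irreducible f) (D : k[X]) :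
    bound ℓ f X D = (bd ℓ f.natDegree D : ℤ) := by
  have h1 : bound ℓ f X D =
      1 + ∑ P ∈ primes D, ((Nat.gcd P.natDegree f.natDegree : ℤ) - 1) * lPart ℓ P.natDegree :=
    Pool.Agent.TH639.SE.bnd_irreducible hℓ hf.monic hfi hf.degree
  rw [h1]
  unfold bd
  push_cast
  congr 1
  refine Finset.sum_congr rfl fun P hP => ?_
  have h2 : 1 ≤ Nat.gcd P.natDegree f.natDegree :=
    Nat.gcd_pos_of_pos_left _ (primes_spec hP).2.1.natDegree_pos
  unfold lPart Pool.Agent.U695.SL.lp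
  push_cast [Nat.cast_sub h2]
  ring

variable [Finite k]

theorem mem_family {d : ℕ} : D ∈ family ℓ f d ↔ D.Monic ∧ D.natDegree = d ∧
    (∀ P : k[X], Irreducible P → ¬ P ^ ℓ ∣ D) ∧ IsCoprime D f :=
  Pool.Agent.U695.SL.mem_Fl

theorem isTwist {d : ℕ} (hD : D ∈ family ℓ f d) : IsTwist ℓ f X D := by
  obtain ⟨h1, -, h2, h3⟩ := mem_family.1 hD
  exact ⟨h1.ne_zero, h2, by rwa [comp_X]⟩

theorem sum_le (hℓ : ℓ.Prime) (hq : ℓ ∣ Nat.card k - 1) (hf : IsAdmissible ℓ f h)
    (hD : IsTwist ℓ f h D) (he : ∀ v : k, v ^ ℓ ≠ e) (hζ : IsPrimitiveRoot ζ ℓ) (r : ℕ → ℕ)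
    (hr : ∀ j < ℓ, VanishesTo ℓ e ζ f h (C (e ^ j) * D) (r j)) :
    (∑ j ∈ Finset.range ℓ, (r j : ℤ)) ≤ bound ℓ f h D := by
  have hh0 : h ≠ 0 := by
    rintro rfl
    have := hf.nonconstant
    simp at this
  have h1 := Pool.Agent.U695.SL.order_bound hℓ hq he hζ hf.monic.ne_zero hf.squarefree.ne_zero hh0
    hD.ne_zero r (fun j hj => (vanishesTo_iff ℓ e ζ f h _ _).1 (hr j hj))
  rw [Pool.Agent.Results.MP_60d5ce_nt.SuperellipticPencils.bound_eq,
    ← Pool.Agent.TH639.SE.bnd_eq ℓ hf.monic.ne_zero hf.squarefree.ne_zero hD.ne_zero hD.coprime]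
  zify at h1
  linarith

theorem card_le (hℓ : ℓ.Prime) (hq : ℓ ∣ Nat.card k - 1) (hf : IsAdmissible ℓ f h)
    (hD : IsTwist ℓ f h D) (he : ∀ v : k, v ^ ℓ ≠ e) (hζ : IsPrimitiveRoot ζ ℓ)
    (hne : (vanishing ℓ e ζ f h D).Nonempty) :
    ((vanishing ℓ e ζ f h D).card : ℤ) ≤ bound ℓ f h D := by
  have hh0 : h ≠ 0 := by
    rintro rfl
    have := hf.nonconstant
    simp at this
  have hv : vanishing ℓ e ζ f h D = (Finset.range ℓ).filter fun j =>
      Pool.Agent.U695.SL.VX ℓ (e ^ ((Nat.card k - 1) / ℓ)) ζ f h (C (e ^ j) * D) 1 := by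
    unfold vanishing
    refine Finset.filter_congr fun j _ => ?_
    exact vanishesTo_iff ℓ e ζ f h _ _
  rw [hv] at hne ⊢
  have h1 := Pool.Agent.U695.SL.card_vanishing hℓ hq he hζ hf.monic.ne_zero
    hf.squarefree.ne_zero hh0 hD.ne_zero hne
  rw [Pool.Agent.Results.MP_60d5ce_nt.SuperellipticPencils.bound_eq,
    ← Pool.Agent.TH639.SE.bnd_eq ℓ hf.monic.ne_zero hf.squarefree.ne_zero hD.ne_zero hD.coprime]
  zify at h1
  linarith

theorem mem_le (hℓ : ℓ.Prime) (hq : ℓ ∣ Nat.card k - 1) (hf : IsAdmissible ℓ f X)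
    (hfi : Irreducible f) {d : ℕ} (hD : D ∈ family ℓ f d) (he : ∀ v : k, v ^ ℓ ≠ e)
    (hζ : IsPrimitiveRoot ζ ℓ) {s : ℕ}
    (hs : s ∈ {s | ∃ r : ℕ → ℕ, (∀ j < ℓ, VanishesTo ℓ e ζ f X (C (e ^ j) * D) (r j)) ∧
      s = ∑ j ∈ Finset.range ℓ, r j}) : s ≤ bd ℓ f.natDegree D := by
  obtain ⟨r, hr, rfl⟩ := hs
  have h1 := sum_le hℓ hq hf (isTwist hD) he hζ r hr
  rw [bound_eq hℓ hf hfi] at h1
  exact_mod_cast h1

theorem total_le (hℓ : ℓ.Prime) (hq : ℓ ∣ Nat.card k - 1) (hf : IsAdmissible ℓ f X)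
    (hfi : Irreducible f) {d : ℕ} (hD : D ∈ family ℓ f d) (he : ∀ v : k, v ^ ℓ ≠ e)
    (hζ : IsPrimitiveRoot ζ ℓ) : totalOrder ℓ e ζ f X D ≤ bd ℓ f.natDegree D := by
  unfold totalOrder
  rcases Set.eq_empty_or_nonempty {s | ∃ r : ℕ → ℕ,
      (∀ j < ℓ, VanishesTo ℓ e ζ f X (C (e ^ j) * D) (r j)) ∧
      s = ∑ j ∈ Finset.range ℓ, r j} with h | h
  · rw [h, csSup_empty]
    exact Nat.zero_le _
  · exact csSup_le h fun s hs => mem_le hℓ hq hf hfi hD he hζ hs

theorem le_total (hℓ : ℓ.Prime) (hq : ℓ ∣ Nat.card k - 1) (hf : IsAdmissible ℓ f X)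
    (hfi : Irreducible f) {d : ℕ} (hD : D ∈ family ℓ f d) (he : ∀ v : k, v ^ ℓ ≠ e)
    (hζ : IsPrimitiveRoot ζ ℓ) {r : ℕ → ℕ}
    (hr : ∀ j < ℓ, VanishesTo ℓ e ζ f X (C (e ^ j) * D) (r j)) :
    ∑ j ∈ Finset.range ℓ, r j ≤ totalOrder ℓ e ζ f X D :=
  le_csSup ⟨bd ℓ f.natDegree D, fun _ hs => mem_le hℓ hq hf hfi hD he hζ hs⟩ ⟨r, hr, rfl⟩

theorem card_le_bd (hℓ : ℓ.Prime) (hq : ℓ ∣ Nat.card k - 1) (hf : IsAdmissible ℓ f X)
    (hfi : Irreducible f) {d : ℕ} (hD : D ∈ family ℓ f d) (he : ∀ v : k, v ^ ℓ ≠ e)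
    (hζ : IsPrimitiveRoot ζ ℓ) : (vanishing ℓ e ζ f X D).card ≤ bd ℓ f.natDegree D := by
  rcases Finset.eq_empty_or_nonempty (vanishing ℓ e ζ f X D) with h | h
  · rw [h, Finset.card_empty]
    exact Nat.zero_le _
  · have h1 := card_le hℓ hq hf (isTwist hD) he hζ h
    rw [bound_eq hℓ hf hfi] at h1
    exact_mod_cast h1

omit [Finite k] in
theorem numbers (h2 : ℓ ≠ 2) (hℓ : ℓ.Prime) (hq : ℓ ∣ Nat.card k - 1) [Finite k]
    (hf : ℓ ∣ f.natDegree + 1) :
    4 ≤ Nat.card k ∧ 2 ≤ f.natDegree ∧ ¬ ℓ ∣ f.natDegree := by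
  have h3 : 3 ≤ ℓ := by
    have := hℓ.two_le
    omega
  have h1 : 1 < Nat.card k := Finite.one_lt_card
  have h4 := Nat.le_of_dvd (by omega) hq
  have h5 := Nat.le_of_dvd (by omega) hf
  refine ⟨by omega, by omega, fun h6 => ?_⟩
  have h7 := (Nat.dvd_add_right h6).1 hf
  have := Nat.le_of_dvd one_pos h7
  omega

omit [Finite k] in
theorem adicSum_eq (ℓ t : ℕ) : adicSum ℓ t = Pool.Agent.U695.SL.SL ℓ t := by
  unfold adicSum Pool.Agent.U695.SL.SL
  refine Finset.sum_congr rfl fun j _ => ?_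
  unfold lPart Pool.Agent.U695.SL.lp
  push_cast
  rfl

theorem average (hℓ : ℓ.Prime) (h2 : ℓ ≠ 2) (hq : ℓ ∣ Nat.card k - 1) (hf : IsAdmissible ℓ f X)
    (hfi : Irreducible f) (he : ∀ v : k, v ^ ℓ ≠ e) (hζ : IsPrimitiveRoot ζ ℓ) (d : ℕ) :
    (∑ D ∈ family ℓ f d, (totalOrder ℓ e ζ f X D : ℝ)) ≤
      (1 + 2 * ∑ m ∈ f.natDegree.divisors.erase 1, (Nat.totient m : ℝ) / m * adicSum ℓ (d / m)) *
        ((family ℓ f d).card : ℝ) := by
  obtain ⟨h4, h5, h6⟩ := numbers h2 hℓ hq hf.degree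
  have h := Pool.Agent.U695.SL.mean_bound hℓ h4 hf.monic hfi h5 h6 d
    (fun D : k[X] => primes D) (fun D hD P hP => primes_spec hP)
  simp only [adicSum_eq]
  refine (Finset.sum_le_sum fun D hD => ?_).trans h
  exact_mod_cast total_le hℓ hq hf hfi hD he hζ

theorem few (hℓ : ℓ.Prime) (h2 : ℓ ≠ 2) (hq : ℓ ∣ Nat.card k - 1) (hf : IsAdmissible ℓ f X)
    (hfi : Irreducible f) (d : ℕ) :
    (((family ℓ f d).filter fun D => 2 ≤ bd ℓ f.natDegree D).card : ℝ) ≤
      (2 * ∑ p ∈ f.natDegree.primeFactors, 1 / (p : ℝ) * harmonicSum (d / p)) *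
        ((family ℓ f d).card : ℝ) := by
  obtain ⟨h4, h5, -⟩ := numbers h2 hℓ hq hf.degree
  exact Pool.Agent.U695.SL.few_bad hℓ h4 hf.monic hfi h5 d
    (fun D : k[X] => primes D) (fun D hD P hP => primes_spec hP)

/-- the elementary limit -/
theorem limit (A : ℕ) {δ : ℝ} (hδ : 0 < δ) : ∃ N : ℕ, ∀ n : ℕ, N ≤ n → ∀ d : ℕ, d ≤ n ^ A →
    2 * (1 / (n : ℝ) * (1 + Real.log ((d / n : ℕ) : ℝ))) ≤ δ := by
  have h1 : Filter.Tendsto (fun n : ℕ => 2 * (1 / (n : ℝ) * (1 + A * Real.log n))) Filter.atTop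
      (nhds 0) := by
    have h2 : Filter.Tendsto (fun n : ℕ => 1 / (n : ℝ)) Filter.atTop (nhds 0) :=
      tendsto_one_div_atTop_nhds_zero_nat
    have h3 : Filter.Tendsto (fun n : ℕ => Real.log n / n) Filter.atTop (nhds 0) := by
      have h4 := (Real.isLittleO_log_id_atTop.tendsto_div_nhds_zero).comp
        tendsto_natCast_atTop_atTop
      exact h4
    have h5 := (h2.const_mul 2).add ((h3.const_mul (2 * A : ℝ)))
    rw [mul_zero, mul_zero, add_zero] at h5
    refine h5.congr fun n => ?_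
    ring
  obtain ⟨N, hN⟩ := Filter.eventually_atTop.1 (h1.eventually (gt_mem_nhds hδ))
  refine ⟨max N 1, fun n hn d hd => ?_⟩
  have hn1 : 1 ≤ n := (le_max_right _ _).trans hn
  have hn0 : (0 : ℝ) < n := by exact_mod_cast hn1
  refine le_trans ?_ (hN n ((le_max_left _ _).trans hn)).le
  have h6 : Real.log ((d / n : ℕ) : ℝ) ≤ A * Real.log n := by
    rcases Nat.eq_zero_or_pos (d / n) with h | h
    · rw [h, Nat.cast_zero, Real.log_zero]
      have : 0 ≤ Real.log n := Real.log_natCast_nonneg n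
      positivity
    · rw [← Real.log_pow]
      apply Real.log_le_log (by exact_mod_cast h)
      have h7 : d / n ≤ n ^ A := (Nat.div_le_self d n).trans hd
      exact_mod_cast h7
  have h7 : (0 : ℝ) ≤ 1 / n := by positivity
  have h9 : 1 / (n : ℝ) * (1 + Real.log ((d / n : ℕ) : ℝ)) ≤ 1 / (n : ℝ) * (1 + A * Real.log n) :=
    mul_le_mul_of_nonneg_left (by linarith) h7
  linarith

theorem few_limit (A : ℕ) {δ : ℝ} (hδ : 0 < δ) : ∃ N : ℕ, ∀ (ℓ : ℕ), ℓ.Prime → ℓ ≠ 2 →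
    ∀ (k : Type) [Field k] [Finite k], ℓ ∣ Nat.card k - 1 → ∀ f : k[X], IsAdmissible ℓ f X →
    Irreducible f → f.natDegree.Prime → N ≤ f.natDegree → ∀ d : ℕ, d ≤ f.natDegree ^ A →
    (((family ℓ f d).filter fun D => 2 ≤ bd ℓ f.natDegree D).card : ℝ) ≤
      δ * ((family ℓ f d).card : ℝ) := by
  obtain ⟨N, hN⟩ := limit A hδ
  refine ⟨N, fun ℓ hℓ h2 k _ _ hq f hf hfi hp hn d hd => ?_⟩
  refine (few hℓ h2 hq hf hfi d).trans (mul_le_mul_of_nonneg_right ?_ (Nat.cast_nonneg _))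
  rw [hp.primeFactors, Finset.sum_singleton]
  refine le_trans ?_ (hN _ hn d hd)
  refine mul_le_mul_of_nonneg_left ?_ (by norm_num)
  refine mul_le_mul_of_nonneg_left ?_ (by positivity)
  exact Pool.Agent.U695.LG.S1_le _

end proof

theorem result :
    -- all superelliptic pencils and all twists
    (∀ ℓ : ℕ, ℓ.Prime → ℓ ≠ 2 → ∀ (k : Type) [Field k] [Finite k], ℓ ∣ Nat.card k - 1 →
      ∀ e : k, (∀ v : k, v ^ ℓ ≠ e) → ∀ ζ : ℂ, IsPrimitiveRoot ζ ℓ →
      ∀ f h D : k[X], IsAdmissible ℓ f h → IsTwist ℓ f h D →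
      -- the product of the components is the `L`-function of the Jacobian
      ∏ ζ' ∈ primitiveRoots ℓ ℂ, component ℓ e ζ' f h D =
        PowerSeries.map (Int.castRingHom ℂ) (Lfun ℓ f h D) ∧
      -- all components vanish to the same order
      (∀ ζ' : ℂ, IsPrimitiveRoot ζ' ℓ → ∀ m : ℕ,
        VanishesTo ℓ e ζ f h D m ↔ VanishesTo ℓ e ζ' f h D m) ∧
      -- the order of the `L`-function of the Jacobian is `ℓ - 1` times that of the components
      (VanishesTo ℓ e ζ f h D 0 → ∀ r : ℕ,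
        Pool.Agent.Results.MP_60d5ce_nt.SuperellipticPencils.VanishesTo ℓ f h D r ↔
          ∃ m : ℕ, r ≤ (ℓ - 1) * m ∧ VanishesTo ℓ e ζ f h D m) ∧
      -- the bound for the `ℓ` constant twists
      (∀ r : ℕ → ℕ, (∀ j < ℓ, VanishesTo ℓ e ζ f h (C (e ^ j) * D) (r j)) →
        (∑ j ∈ Finset.range ℓ, (r j : ℤ)) ≤ bound ℓ f h D) ∧
      ((vanishing ℓ e ζ f h D).Nonempty →
        ((vanishing ℓ e ζ f h D).card : ℤ) ≤ bound ℓ f h D)) ∧
    -- averages for `h = t` and irreducible `f`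
    (∀ ℓ : ℕ, ℓ.Prime → ℓ ≠ 2 → ∀ (k : Type) [Field k] [Finite k], ℓ ∣ Nat.card k - 1 →
      ∀ e : k, (∀ v : k, v ^ ℓ ≠ e) → ∀ ζ : ℂ, IsPrimitiveRoot ζ ℓ →
      ∀ f : k[X], IsAdmissible ℓ f X → Irreducible f → ∀ d : ℕ,
      (Nat.card k : ℝ) ^ d / 2 ≤ ((family ℓ f d).card : ℝ) ∧
      (∀ D ∈ family ℓ f d, ∀ r : ℕ → ℕ, (∀ j < ℓ, VanishesTo ℓ e ζ f X (C (e ^ j) * D) (r j)) →
        ∑ j ∈ Finset.range ℓ, r j ≤ totalOrder ℓ e ζ f X D) ∧
      (∑ D ∈ family ℓ f d, (totalOrder ℓ e ζ f X D : ℝ)) ≤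
        (1 + 2 * ∑ m ∈ f.natDegree.divisors.erase 1, (Nat.totient m : ℝ) / m * adicSum ℓ (d / m)) *
          ((family ℓ f d).card : ℝ) ∧
      (((family ℓ f d).filter fun D =>
          2 ≤ totalOrder ℓ e ζ f X D ∨ 2 ≤ (vanishing ℓ e ζ f X D).card).card : ℝ) ≤
        (2 * ∑ p ∈ f.natDegree.primeFactors, 1 / (p : ℝ) * harmonicSum (d / p)) *
          ((family ℓ f d).card : ℝ)) ∧
    -- the sums
    (∀ ℓ : ℕ, ℓ.Prime → ∀ t : ℕ, harmonicSum t ≤ 1 + Real.log t ∧
      adicSum ℓ t ≤ (1 + Nat.log ℓ t) * (1 + Real.log t)) ∧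
    -- the large genus limit
    ∀ (A : ℕ) (δ : ℝ), 0 < δ → ∃ N : ℕ, ∀ ℓ : ℕ, ℓ.Prime → ℓ ≠ 2 →
      ∀ (k : Type) [Field k] [Finite k], ℓ ∣ Nat.card k - 1 →
      ∀ e : k, (∀ v : k, v ^ ℓ ≠ e) → ∀ ζ : ℂ, IsPrimitiveRoot ζ ℓ →
      ∀ f : k[X], IsAdmissible ℓ f X → Irreducible f → f.natDegree.Prime → N ≤ f.natDegree →
      ∀ d : ℕ, d ≤ f.natDegree ^ A →
      (∑ D ∈ family ℓ f d, ((vanishing ℓ e ζ f X D).card : ℝ)) ≤
        (1 / (ℓ : ℝ) + δ) * ((ℓ : ℝ) * ((family ℓ f d).card : ℝ)) := by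
  refine ⟨fun ℓ hℓ _ k _ _ hq e he ζ hζ f h D hf hD => ⟨?_, ?_, ?_, ?_, ?_⟩,
    fun ℓ hℓ h2 k _ _ hq e he ζ hζ f hf hfi d => ⟨?_, ?_, ?_, ?_⟩,
    fun ℓ hℓ t => ⟨Pool.Agent.U695.LG.S1_le t, ?_⟩, fun A δ hδ => ?_⟩
  · rw [Finset.prod_congr rfl fun ζ' _ => component_eq ℓ e ζ' f h D,
      Pool.Agent.Results.MP_60d5ce_nt.SuperellipticPencils.Lfun_eq]
    exact Pool.Agent.U695.SL.LX_prod hℓ hq (Pool.Agent.U695.SL.prim hℓ hq he) hζ f h D
  · intro ζ' hζ' m
    rw [vanishesTo_iff, vanishesTo_iff]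
    exact Pool.Agent.U695.SL.vx_indep hℓ.pos hζ hζ' _ f h D m
  · intro h0 r
    rw [vanishesTo_iff] at h0
    have h1 := Pool.Agent.U695.SL.whole_order hℓ hq (Pool.Agent.U695.SL.prim hℓ hq he) hζ h0 r
    unfold Pool.Agent.Results.MP_60d5ce_nt.SuperellipticPencils.VanishesTo
    rw [Pool.Agent.Results.MP_60d5ce_nt.SuperellipticPencils.Lfun_eq, h1]
    exact exists_congr fun m => and_congr Iff.rfl (vanishesTo_iff ℓ e ζ f h D m).symm
  · exact fun r hr => sum_le hℓ hq hf hD he hζ r hr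
  · exact fun hne => card_le hℓ hq hf hD he hζ hne
  · obtain ⟨h4, h5, -⟩ := numbers h2 hℓ hq hf.degree
    exact Pool.Agent.U695.SL.card_Fl hℓ.two_le h4 hf.monic hfi h5 d
  · exact fun D hD r hr => le_total hℓ hq hf hfi hD he hζ hr
  · exact average hℓ h2 hq hf hfi he hζ d
  · refine le_trans ?_ (few hℓ h2 hq hf hfi d)
    have h3 : ((family ℓ f d).filter fun D =>
        2 ≤ totalOrder ℓ e ζ f X D ∨ 2 ≤ (vanishing ℓ e ζ f X D).card).card ≤
        ((family ℓ f d).filter fun D => 2 ≤ bd ℓ f.natDegree D).card := by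
      refine Finset.card_le_card fun D hD => ?_
      rw [Finset.mem_filter] at hD ⊢
      refine ⟨hD.1, ?_⟩
      rcases hD.2 with h | h
      · exact h.trans (total_le hℓ hq hf hfi hD.1 he hζ)
      · exact h.trans (card_le_bd hℓ hq hf hfi hD.1 he hζ)
    exact_mod_cast h3
  · rw [adicSum_eq]
    exact Pool.Agent.U695.SL.SL_le hℓ t
  · obtain ⟨N, hN⟩ := few_limit A hδ
    refine ⟨N, fun ℓ hℓ h2 k _ _ hq e he ζ hζ f hf hfi hp hn d hd => ?_⟩
    have h3 := hN ℓ hℓ h2 k hq f hf hfi hp hn d hd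
    have hℓ0 : (0 : ℝ) < ℓ := by exact_mod_cast hℓ.pos
    have h4 : ∀ D ∈ family ℓ f d, ((vanishing ℓ e ζ f X D).card : ℝ) ≤
        1 + (ℓ : ℝ) * (if 2 ≤ bd ℓ f.natDegree D then 1 else 0) := by
      intro D hD
      split_ifs with h5
      · have h6 : (vanishing ℓ e ζ f X D).card ≤ ℓ := by
          unfold vanishing
          exact (Finset.card_filter_le _ _).trans (by rw [Finset.card_range])
        have h7 : ((vanishing ℓ e ζ f X D).card : ℝ) ≤ ℓ := by exact_mod_cast h6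
        linarith
      · have h6 := card_le_bd hℓ hq hf hfi hD he hζ
        have h7 : (vanishing ℓ e ζ f X D).card ≤ 1 := by omega
        have h8 : ((vanishing ℓ e ζ f X D).card : ℝ) ≤ 1 := by exact_mod_cast h7
        linarith
    refine (Finset.sum_le_sum h4).trans ?_
    rw [Finset.sum_add_distrib, Finset.sum_const, nsmul_eq_mul, mul_one, ← Finset.mul_sum,
      ← Finset.sum_filter, Finset.sum_const, nsmul_eq_mul, mul_one]
    have h5 := mul_le_mul_of_nonneg_left h3 hℓ0.le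
    have h6 : (1 / (ℓ : ℝ) + δ) * ((ℓ : ℝ) * ((family ℓ f d).card : ℝ)) =
        ((family ℓ f d).card : ℝ) + (ℓ : ℝ) * (δ * ((family ℓ f d).card : ℝ)) := by
      field_simp
    rw [h6]
    linarith

end Pool.Agent.Results.MP_9faec4_nt.SuperellipticLargeGenus
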