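import Pool.Agent.U120.CC.Hz
import Pool.Agent.Results.MP_e996df_nt.MajorityThreePart

/-!
# The conjecture of Birch and Swinnerton-Dyer for the cubic twists by the products of the primes of an ARBITRARY
# set of primes of `ℚ(√-3)`

`K` is the field of third roots of unity and `E_D : y² + D y = x³`. The primary primes are the prime elements
`1` modulo `3` of `𝓞 K`: every prime ideal prime to `3` has exactly one primary generator. Let `T` be ANY set
(finite or infinite, thin or dense) of primary primes of norm not `1` modulo `9`. The twists over `T` are the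
curves `E_{ξ D}`, `ξ³ = 1`, `D = ∏_{q ∈ U} q ^ e q`, with a finite nonempty subset `U` of `T` and `e q = 1, 2`;
if `ξ = 1` then the norm of `D` is not `1` modulo `9`.

`Holds (ξ D)` says: the rank of `E_{ξ D}(K)` and the order of `L(E_{ξ D} / K, s)` at `1` are zero,
`Ш(E_{ξ D} / K)[3^∞] = 0`, and the `3`-part of the formula of Birch and Swinnerton-Dyer is true.

For a third root of unity `ζ` the set `T` is called `ζ`-coherent if `ζ ^ ((N p - 1) / 3) p` is a cube modulo `q`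
for all the pairs of different elements `p, q` of `T`.

* THE TWISTS `1` MODULO `3`. `Holds D` for ALL the twists with `ξ = 1` over `T`, if and only if it holds for the
  products of at most three different primes, if and only if `T` is `ζ`-coherent for some `ζ ≠ 1`.
* THE OTHER TWISTS. `Holds (ξ D)` for ALL the twists with `ξ ≠ 1`, if and only if it holds for the products of at
  most two different primes, if and only if `T` is `1`-coherent: all elements of `T` are cubes modulo all the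
  other ones.
* COHERENT SETS. If `T` is `ζ`-coherent then, for all the twists over `T`, `E_{ξ D}(K)` is finite and
  `Ш(E_{ξ D}/K)[3^∞] = 0` exactly when `ξ ≠ ζ ^ ((N D - 1) / 3)` or `D` is a power of one prime: six of the
  eight classes (`ξ`, `N D` modulo `9`) always, and two classes never (for at least two primes).
* BOUNDED SELMER GROUPS. The orders of the Selmer groups `SelRoot D` of the endomorphism `√-3` (or of the
  `3`-Selmer groups, or of one in the list) are bounded for the twists with `ξ = 1` over `T`, if and only if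
  there is an `m` such that `#SelRoot D < 3 ^ (m + 1)` for the products of at most `2 m + 1` primes, if and only
  if `T` is `ζ`-coherent for some `ζ ≠ 1` up to the pairs inside of a finite set `G`; then
  `#SelRoot D ≤ 3 ^ (#(U ∩ G) + 1)` and the rank of `E_D(K)` is at most `2 #(U ∩ G)`. If `T` is `1`-coherent then
  `#SelRoot D = 3 ^ #U` for all these `D`.
* TOWERS. Let `T` be `ζ`-coherent, `ζ ≠ 1`, `D` any squarefree product of elements of `T` of norm not `1` modulo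
  `9`, and `T'` any subset of `T` with constant norm modulo `9`. Then the rank conjecture holds for `E_D` over
  ALL the number fields `F` between `K` and `K(∛(p / q) : p, q ∈ T')`, with order and rank `0`, and `[F : K]`
  kills `Ш(E_D/F)[3^∞]`.
* EXISTENCE. Every infinite set of such primes contains an infinite `ζ`-coherent set for some `ζ`; every set
  of positive upper density contains an infinite `ζ`-coherent set for each of the three `ζ`. For a finite set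
  `P` of such primes the share of the primes `q` for which `ζ ^ ((N p - 1) / 3) p` is a cube modulo `q` for all
  `p ∈ P` is `3 ^ (- #P)`.

The dependence of the groups on the cubic residue symbols and the law for the `L`-values are from the starting
library (`MP_e996df_nt.MajorityThreePart` and its library), the step from the twists `E_{D M}` over `K` to the
fields `F` is from `U693/CT`. New here (`Pool/Agent/U120/CC`): the equivalences (weighted Laplacians over the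
field with three elements on infinite vertex sets: all kernels trivial, all kernels bounded, slow growth).
-/

set_option autoImplicit false
set_option linter.unusedSectionVars false

open scoped Classical

namespace Pool.Agent.Results.MP_9faec4_nt.TwistsOverCoherentPrimes

open NumberField IsDedekindDomain WeierstrassCurve Filter
open Pool.Agent.TH841.SH.D (Pt act Gal Coch)
open Pool.Agent.TH841.NF.D (IsShaCoc Sha)
open Pool.Agent.Results.MP_e996df_nt.MajorityThreePart (curve FiniteAndTrivial Law)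

section field

variable {F : Type} [Field F] [NumberField F]

/-- The number of elements of the residue field at `v`. -/
noncomputable def residues (v : HeightOneSpectrum (𝓞 F)) : ℕ := Nat.card (𝓞 F ⧸ v.asIdeal)

/-- The number of points (with the point at infinity) of the curve `y² + D y = x³` over the residue
field at `v`. -/
noncomputable def points (D : 𝓞 F) (v : HeightOneSpectrum (𝓞 F)) : ℕ :=
  Nat.card {P : (𝓞 F ⧸ v.asIdeal) × (𝓞 F ⧸ v.asIdeal) //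
    P.2 ^ 2 + Ideal.Quotient.mk v.asIdeal D * P.2 = P.1 ^ 3} + 1

/-- The Euler factor `(1 - a_v q_v^{-s} + q_v^{1 - 2 s})⁻¹`, `a_v = q_v + 1 - N_v`, with `q_v = residues v`
and `N_v = points D v`. -/
noncomputable def factor (D : 𝓞 F) (s : ℂ) (v : HeightOneSpectrum (𝓞 F)) : ℂ :=
  (1 - ((residues v : ℂ) + 1 - points D v) * (residues v : ℂ) ^ (-s) +
    (residues v : ℂ) ^ (1 - 2 * s))⁻¹

/-- For the curve `E_D : y² + D y = x³` over `F`: the Euler product over the places `v` of `F` that do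
not divide `B` converges for `Re s > 3/2`, it extends to an entire function `L`, the order of `L` at
`s = 1` is the rank of `E_D(F)`, `L(1) ≠ 0`, `E_D(F)` is finite, and `m` kills the `3`-primary part of
`Ш(E_D / F)`. -/
def RankZero (B D : 𝓞 F) (m : ℕ) : Prop :=
  (∃ L : ℂ → ℂ, Differentiable ℂ L ∧
    (∀ s : ℂ, 3 / 2 < s.re →
      HasProd (fun v : {v : HeightOneSpectrum (𝓞 F) // B ∉ v.asIdeal} => factor D s v.1) (L s)) ∧
    analyticOrderAt L 1 = ((Module.finrank ℤ (curve (D : F)).toAffine.Point : ℕ) : ℕ∞) ∧ L 1 ≠ 0) ∧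
  Finite (curve (D : F)).toAffine.Point ∧
  ∀ (k : ℕ) (y : Sha (curve (D : F))), 3 ^ k • y = 0 → m • y = 0

end field

variable {K : Type} [Field K] [NumberField K]

/-- The group of the continuous cocycles of the absolute Galois group of `K` with values in `E_D[3]`
that are coboundaries in `E_D` at all the places of `K`. -/
def Cocycles (D : K) : AddSubgroup (Coch (curve D)) where
  carrier := {f | IsShaCoc (curve D) f ∧ ∀ σ, 3 • f σ = 0}
  zero_mem' := (Pool.Agent.R419.KL.coc3 D).zero_mem'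
  add_mem' := (Pool.Agent.R419.KL.coc3 D).add_mem'
  neg_mem' := (Pool.Agent.R419.KL.coc3 D).neg_mem'

/-- The group of the coboundaries of the points of `E_D[3]`. -/
def Coboundaries (D : K) : AddSubgroup (Coch (curve D)) where
  carrier := {f | ∃ P : Pt (curve D) (AlgebraicClosure K), 3 • P = 0 ∧
    ∀ σ : Gal K, f σ = act (curve D) σ.toAlgHom P - P}
  zero_mem' := (Pool.Agent.R419.KL.cob3 D).zero_mem'
  add_mem' := (Pool.Agent.R419.KL.cob3 D).add_mem'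
  neg_mem' := (Pool.Agent.R419.KL.cob3 D).neg_mem'

/-- The `3`-Selmer group of `E_D` over `K`: the kernel of `H¹(K, E_D[3]) → ∏ H¹(K_v, E_D)`. -/
def Sel3 (D : K) : Type := Cocycles D ⧸ (Coboundaries D).addSubgroupOf (Cocycles D)

/-- The Selmer group of the endomorphism `√-3`: the continuous cocycles with values in its kernel
`{0, (0, 0), (0, -D)}` that are coboundaries in `E_D` at all the places of `K`. -/
def SelRoot (D : K) : Set (Coch (curve D)) :=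
  {f | IsShaCoc (curve D) f ∧ ∀ σ, f σ = 0 ∨ ∃ y h, f σ = Affine.Point.some 0 y h}

/-- The rank of `E_D(K)` over `ℤ`. -/
noncomputable def rank (D : K) : ℕ := Module.finrank ℤ (curve D).toAffine.Point

/-- The rank and the order at `s = 1` are zero, `Ш(E_D/K)[3^∞] = 0`, and the `3`-part of the formula holds
(see `Law`). -/
def Holds (D : 𝓞 K) : Prop := Law D ∧ FiniteAndTrivial D

/-- the prime elements `1` modulo `3` of norm not `1` modulo `9` -/
def Admissible (p : 𝓞 K) : Prop := (Prime p ∧ (3 : 𝓞 K) ∣ p - 1) ∧ ¬ (9 : ℤ) ∣ Algebra.norm ℤ p - 1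

/-- `∏_{p ∈ U} p ^ e p` -/
noncomputable def prodPow (U : Finset (𝓞 K)) (e : 𝓞 K → ℕ) : 𝓞 K := ∏ p ∈ U, p ^ e p

/-- `ξ` is a third root of unity, `U` a nonempty finite subset of `T`, the exponents are `1` or `2`, and if
`ξ = 1` then the norm of `∏ p ^ e p` is not `1` modulo `9` -/
def IsTwist (T : Set (𝓞 K)) (ξ : 𝓞 K) (U : Finset (𝓞 K)) (e : 𝓞 K → ℕ) : Prop :=
  ξ ^ 3 = 1 ∧ (U : Set (𝓞 K)) ⊆ T ∧ U.Nonempty ∧ (∀ p ∈ U, e p = 1 ∨ e p = 2) ∧
    (ξ = 1 → ¬ (9 : ℤ) ∣ Algebra.norm ℤ (prodPow U e) - 1)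

/-- `ζ ^ ((N p - 1) / 3) p` is a cube modulo `r` -/
def Linked (ζ p r : 𝓞 K) : Prop :=
  ∃ y, r ∣ ζ ^ (((Algebra.norm ℤ p).natAbs - 1) / 3) * p - y ^ 3

/-- all the pairs of different elements of `T` that are not both in `G` are linked -/
def Coherent (ζ : 𝓞 K) (T : Set (𝓞 K)) (G : Finset (𝓞 K)) : Prop :=
  ∀ p ∈ T, ∀ r ∈ T, p ≠ r → ¬ (p ∈ G ∧ r ∈ G) → Linked ζ p r

/-- the field `K_T = K(∛(p / r) : p, r ∈ T)` inside an algebraic closure of `K` -/
noncomputable def CubeField (T : Set (𝓞 K)) : IntermediateField K (AlgebraicClosure K) :=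
  IntermediateField.adjoin K {z | ∃ p ∈ T, ∃ r ∈ T,
    z ^ 3 * algebraMap K (AlgebraicClosure K) (r : K) = algebraMap K (AlgebraicClosure K) (p : K)}

/-- The degrees of the fields `K_A`, `A ⊆ T` finite, are `3 ^ (#A - 1)`; and for all the number
fields `F` between `K` and `K_T` there is a product `M` of elements of `T` such that the rank conjecture
holds for `E_D` over `F`, with order and rank `0`, for the `L`-function without the factors at the places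
dividing `3 D M`, and `[F : K]` kills `Ш(E_D/F)[3^∞]`. -/
def Tower (D : 𝓞 K) (T : Set (𝓞 K)) : Prop :=
  (∀ A : Finset (𝓞 K), A.Nonempty → (A : Set (𝓞 K)) ⊆ T →
    Module.finrank K (CubeField (A : Set (𝓞 K))) = 3 ^ (A.card - 1)) ∧
  ∀ F : IntermediateField K (AlgebraicClosure K), F ≤ CubeField T → FiniteDimensional K F →
    ∃ (_ : NumberField F) (M : Multiset (𝓞 K)), (∀ p ∈ M, p ∈ T) ∧
      RankZero (algebraMap (𝓞 K) (𝓞 F) (3 * D * M.prod)) (algebraMap (𝓞 K) (𝓞 F) D)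
        (Module.finrank K F)

/-- the number of the prime elements `1` modulo `3` of norm at most `X` with the property `Q` -/
noncomputable def count (Q : 𝓞 K → Prop) (X : ℕ) : ℝ :=
  ({p : 𝓞 K | (Prime p ∧ (3 : 𝓞 K) ∣ p - 1) ∧ Algebra.norm ℤ p ≤ X ∧ Q p}.ncard : ℝ)

section proof

open Pool.Agent.U120.CC
open Pool.Agent.U693.CT (main_F deg_cf Cor)

theorem finrank_fin {A : Type} [AddCommGroup A] [Finite A] : Module.finrank ℤ A = 0 := by
  have h : Module.IsTorsion ℤ A := by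
    intro x
    have hn : (Nat.card A : ℤ) ≠ 0 := by exact_mod_cast Nat.card_pos.ne'
    refine ⟨⟨(Nat.card A : ℤ), mem_nonZeroDivisors_of_ne_zero hn⟩, ?_⟩
    show (Nat.card A : ℤ) • x = 0
    rw [natCast_zsmul]
    exact card_nsmul_eq_zero'
  exact Module.finrank_eq_zero_iff_isTorsion.2 h

theorem ef_eq {F : Type} [Field F] [NumberField F] (c : 𝓞 F) (s : ℂ) (v : HeightOneSpectrum (𝓞 F)) :
    Pool.Agent.R432.V.ef c s v = factor c s v := by
  unfold factor Pool.Agent.R432.V.ef residues points Pool.Agent.R432.V.qv Pool.Agent.R432.V.cn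
  rw [Nat.cast_add, Nat.cast_one, add_sub_add_right_eq_sub]

theorem rankZero_of {F : Type} [Field F] [NumberField F] {B D : 𝓞 F} {m : ℕ}
    (h1 : ∃ L : ℂ → ℂ, Differentiable ℂ L ∧
      (∀ s : ℂ, 3 / 2 < s.re →
        HasProd (fun v : {v : HeightOneSpectrum (𝓞 F) // B ∉ v.asIdeal} => factor D s v.1) (L s)) ∧
      L 1 ≠ 0) (h2 : Finite (curve (D : F)).toAffine.Point)
    (h3 : ∀ (k : ℕ) (y : Sha (curve (D : F))), 3 ^ k • y = 0 → m • y = 0) : RankZero B D m := by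
  obtain ⟨L, l1, l2, l3⟩ := h1
  refine ⟨⟨L, l1, l2, ?_, l3⟩, h2, h3⟩
  rw [finrank_fin]
  exact (l1.analyticAt 1).analyticOrderAt_eq_zero.2 l3

theorem tower_of [IsCyclotomicExtension {3} ℚ K] {D : 𝓞 K} (hD : Pool.Agent.Y696.CTK.ClsK D)
    {T : Set (𝓞 K)} (hne : T.Nonempty) (h : Cor D T) : Tower D T := by
  obtain ⟨h1, h2, h3⟩ := h
  obtain ⟨p₀, hp₀⟩ := hne
  refine ⟨fun A hA hAT => deg_cf hD h1 h2 hAT hA, fun F hF hfd => ?_⟩
  have hN : NumberField F := NumberField.of_module_finite K F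
  obtain ⟨n, d, ⟨M, g1, -, g3⟩, g4, ⟨L, l1, l2, l3⟩, g5, g6⟩ := main_F hD h1 h2 h3 hp₀ F hF hfd hN
  refine ⟨hN, M, g1, rankZero_of ⟨L, l1, fun s hs => ?_, l2⟩ g5 ?_⟩
  · rw [← g3]
    refine (l3 s hs).congr_fun fun v => ?_
    exact (ef_eq _ _ _).symm
  · rw [g4]
    exact g6

theorem root_iff (ζ : 𝓞 K) : (ζ ^ 3 = 1 ∧ ζ ≠ 1) ↔ ζ ^ 2 + ζ + 1 = 0 := by
  constructor
  · rintro ⟨h1, h2⟩
    have h3 : (ζ - 1) * (ζ ^ 2 + ζ + 1) = 0 := by linear_combination h1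
    exact (mul_eq_zero.1 h3).resolve_left (sub_ne_zero.2 h2)
  · intro h
    refine ⟨by linear_combination (ζ - 1) * h, ?_⟩
    rintro rfl
    have h4 : ((3 : ℕ) : 𝓞 K) = 0 := by
      push_cast
      linear_combination h
    exact absurd (Nat.cast_eq_zero.1 h4) (by norm_num)

theorem is_one {T : Set (𝓞 K)} {U : Finset (𝓞 K)} {e : 𝓞 K → ℕ} :
    IsTwist T 1 U e ↔ IsTw T U e := by
  constructor
  · rintro ⟨-, h1, -, h2, h3⟩
    exact ⟨h1, h2, h3 rfl⟩
  · rintro ⟨h1, h2, h3⟩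
    refine ⟨one_pow 3, h1, ?_, h2, fun _ => h3⟩
    rw [Finset.nonempty_iff_ne_empty]
    rintro rfl
    refine h3 ?_
    unfold tw
    rw [Finset.prod_empty, map_one, sub_self]
    exact dvd_zero _

theorem is_ne {T : Set (𝓞 K)} {ξ : 𝓞 K} {U : Finset (𝓞 K)} {e : 𝓞 K → ℕ} :
    (ξ ≠ 1 ∧ IsTwist T ξ U e) ↔ ξ ^ 2 + ξ + 1 = 0 ∧ IsT1 T U e := by
  rw [← root_iff]
  constructor
  · rintro ⟨h0, h1, h2, h3, h4, -⟩
    exact ⟨⟨h1, h0⟩, h2, h3, h4⟩
  · rintro ⟨⟨h1, h0⟩, h2, h3, h4⟩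
    exact ⟨h0, h1, h2, h3, h4, fun h => absurd h h0⟩

variable [IsCyclotomicExtension {3} ℚ K]

/-- the law -/
theorem law_tw {T : Set (𝓞 K)} (hT : ∀ p ∈ T, Admissible p) {ξ : 𝓞 K} {U : Finset (𝓞 K)}
    {e : 𝓞 K → ℕ} (h : IsTwist T ξ U e) : Law (ξ * prodPow U e) := by
  obtain ⟨⟨j, hj⟩, -⟩ := Pool.Agent.Y455.CTK.jex K
  by_cases hξ : ξ = 1
  · subst hξ
    obtain ⟨h1, h2⟩ := fam_tw j hj hT (is_one.1 h)
    rw [one_mul]
    exact ((Pool.Agent.Results.MP_e996df_nt.MajorityThreePart.result K).2.1 _ h1 h2).1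
  · obtain ⟨h3, h4⟩ := is_ne.1 ⟨hξ, h⟩
    obtain ⟨h1, h2⟩ := fam_tw1 j hj hT h3 h4
    exact ((Pool.Agent.Results.MP_e996df_nt.MajorityThreePart.result K).2.1 _ h1 h2).1

theorem holds_iff {T : Set (𝓞 K)} (hT : ∀ p ∈ T, Admissible p) {ξ : 𝓞 K} {U : Finset (𝓞 K)}
    {e : 𝓞 K → ℕ} (h : IsTwist T ξ U e) :
    Holds (ξ * prodPow U e) ↔ FiniteAndTrivial (ξ * prodPow U e) :=
  ⟨fun h1 => h1.2, fun h1 => ⟨law_tw hT h, h1⟩⟩

theorem holds_one {T : Set (𝓞 K)} (hT : ∀ p ∈ T, Admissible p) {U : Finset (𝓞 K)}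
    {e : 𝓞 K → ℕ} (h : IsTwist T 1 U e) :
    Holds (prodPow U e) ↔ FiniteAndTrivial (prodPow U e) := by
  have h1 := holds_iff hT h
  rwa [one_mul] at h1

/-- the facts on one `D` -/
theorem facts {T : Set (𝓞 K)} (hT : ∀ p ∈ T, Admissible p) {U : Finset (𝓞 K)}
    {e : 𝓞 K → ℕ} (h : IsTwist T 1 U e) :
    ∃ r s : ℕ, (SelRoot (prodPow U e : K)).ncard = 3 ^ (r + 1) ∧
      Nat.card (Sel3 (prodPow U e : K)) = 3 ^ (s + 1) ∧
      r ≤ s ∧ s ≤ 2 * r ∧ rank (prodPow U e : K) ≤ 2 * r := by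
  obtain ⟨⟨j, hj⟩, -⟩ := Pool.Agent.Y455.CTK.jex K
  obtain ⟨ω, hω⟩ : ∃ ω : K, ω ^ 2 + ω + 1 = 0 := by
    have hww : (Pool.Agent.Y692.QS.w : Pool.Agent.Y692.QS.Ei) ^ 2 + Pool.Agent.Y692.QS.w + 1 = 0 := by
      decide
    refine ⟨((j Pool.Agent.Y692.QS.w : 𝓞 K) : K), ?_⟩
    have h2 := congrArg (fun z => ((j z : 𝓞 K) : K)) hww
    simp only [map_add, map_pow, map_one, map_zero] at h2
    exact h2
  obtain ⟨x, -, -, -, -, h5⟩ := tw_data j hj hT (is_one.1 h)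
  exact (Pool.Agent.R419.KL.finalSel3 K ω hω).1 _ h5.1

theorem part1 {T : Set (𝓞 K)} (hT : ∀ p ∈ T, Admissible p) :
    [∀ U e, IsTwist T 1 U e → Holds (prodPow U e),
      ∀ U e, IsTwist T 1 U e → U.card ≤ 3 → Holds (prodPow U e),
      ∃ ζ : 𝓞 K, ζ ^ 3 = 1 ∧ ζ ≠ 1 ∧ Coherent ζ T ∅].TFAE := by
  obtain ⟨⟨j, hj⟩, -⟩ := Pool.Agent.Y455.CTK.jex K
  obtain ⟨h1, h2⟩ := all_tri j hj (T := T) hT
  have e1 : (∀ U e, IsTwist T 1 U e → Holds (prodPow U e)) ↔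
      ∀ U e, IsTw T U e → Pool.Agent.Y696.CTK.Tri (tw U e) :=
    ⟨fun h U e hU => (holds_one hT (is_one.2 hU)).1 (h U e (is_one.2 hU)),
      fun h U e hU => (holds_one hT hU).2 (h U e (is_one.1 hU))⟩
  have e2 : (∀ U e, IsTwist T 1 U e → U.card ≤ 3 → Holds (prodPow U e)) ↔
      ∀ U e, IsTw T U e → U.card ≤ 3 → Pool.Agent.Y696.CTK.Tri (tw U e) :=
    ⟨fun h U e hU hc => (holds_one hT (is_one.2 hU)).1 (h U e (is_one.2 hU) hc),
      fun h U e hU hc => (holds_one hT hU).2 (h U e (is_one.1 hU) hc)⟩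
  have e3 : (∃ ζ : 𝓞 K, ζ ^ 3 = 1 ∧ ζ ≠ 1 ∧ Coherent ζ T ∅) ↔
      ∃ ζ : 𝓞 K, ζ ^ 2 + ζ + 1 = 0 ∧ Ch ζ T ∅ :=
    exists_congr fun ζ => by
      rw [← and_assoc, root_iff]
      exact Iff.rfl
  tfae_have 1 ↔ 2 := by rw [e1, e2]; exact h1
  tfae_have 1 ↔ 3 := by rw [e1, e3]; exact h2
  tfae_finish

theorem part2 {T : Set (𝓞 K)} (hT : ∀ p ∈ T, Admissible p) :
    [∀ ξ U e, ξ ≠ 1 → IsTwist T ξ U e → Holds (ξ * prodPow U e),
      ∀ ξ U e, ξ ≠ 1 → IsTwist T ξ U e → U.card ≤ 2 → Holds (ξ * prodPow U e),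
      Coherent 1 T ∅].TFAE := by
  obtain ⟨⟨j, hj⟩, -⟩ := Pool.Agent.Y455.CTK.jex K
  obtain ⟨h1, h2⟩ := all_w j hj (T := T) hT
  have e1 : (∀ ξ U e, ξ ≠ 1 → IsTwist T ξ U e → Holds (ξ * prodPow U e)) ↔
      ∀ (ζ : 𝓞 K) U e, ζ ^ 2 + ζ + 1 = 0 → IsT1 T U e → Pool.Agent.Y696.CTK.Tri (ζ * tw U e) :=
    ⟨fun h ζ U e hζ hU => by
        obtain ⟨g1, g2⟩ := is_ne.2 ⟨hζ, hU⟩
        exact (holds_iff hT g2).1 (h ζ U e g1 g2),
      fun h ξ U e hξ hU => by
        obtain ⟨g1, g2⟩ := is_ne.1 ⟨hξ, hU⟩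
        exact (holds_iff hT hU).2 (h ξ U e g1 g2)⟩
  have e2 : (∀ ξ U e, ξ ≠ 1 → IsTwist T ξ U e → U.card ≤ 2 → Holds (ξ * prodPow U e)) ↔
      ∀ (ζ : 𝓞 K) U e, ζ ^ 2 + ζ + 1 = 0 → IsT1 T U e → U.card ≤ 2 →
        Pool.Agent.Y696.CTK.Tri (ζ * tw U e) :=
    ⟨fun h ζ U e hζ hU hc => by
        obtain ⟨g1, g2⟩ := is_ne.2 ⟨hζ, hU⟩
        exact (holds_iff hT g2).1 (h ζ U e g1 g2 hc),
      fun h ξ U e hξ hU hc => by
        obtain ⟨g1, g2⟩ := is_ne.1 ⟨hξ, hU⟩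
        exact (holds_iff hT hU).2 (h ξ U e g1 g2 hc)⟩
  tfae_have 1 ↔ 2 := by rw [e1, e2]; exact h1
  tfae_have 1 ↔ 3 := by rw [e1]; exact h2
  tfae_finish

theorem part4 {T : Set (𝓞 K)} (hT : ∀ p ∈ T, Admissible p) :
    [∃ C : ℕ, ∀ U e, IsTwist T 1 U e → (SelRoot (prodPow U e : K)).ncard ≤ C,
      ∃ C : ℕ, ∀ U e, IsTwist T 1 U e → Nat.card (Sel3 (prodPow U e : K)) ≤ C,
      ∃ m : ℕ, ∀ U e, IsTwist T 1 U e → U.card ≤ 2 * m + 1 →
        (SelRoot (prodPow U e : K)).ncard < 3 ^ (m + 1),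
      ∃ (ζ : 𝓞 K) (G : Finset (𝓞 K)), ζ ^ 3 = 1 ∧ ζ ≠ 1 ∧ (G : Set (𝓞 K)) ⊆ T ∧
        Coherent ζ T G].TFAE := by
  obtain ⟨⟨j, hj⟩, -⟩ := Pool.Agent.Y455.CTK.jex K
  obtain ⟨h1, h2⟩ := all_bd j hj (T := T) hT
  have e4 : (∃ (ζ : 𝓞 K) (G : Finset (𝓞 K)), ζ ^ 3 = 1 ∧ ζ ≠ 1 ∧ (G : Set (𝓞 K)) ⊆ T ∧
      Coherent ζ T G) ↔ ∃ (ζ : 𝓞 K) (G : Finset (𝓞 K)), ζ ^ 2 + ζ + 1 = 0 ∧
        (G : Set (𝓞 K)) ⊆ T ∧ Ch ζ T G :=
    exists_congr fun ζ => exists_congr fun G => by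
      rw [← and_assoc, root_iff]
      exact Iff.rfl
  have e1 : (∃ C : ℕ, ∀ U e, IsTwist T 1 U e → (SelRoot (prodPow U e : K)).ncard ≤ C) ↔
      ∃ C : ℕ, ∀ U e, IsTw T U e → (Pool.Agent.XL6.SelK (tw U e : K)).ncard ≤ C :=
    exists_congr fun C => forall₂_congr fun U e => by
      rw [is_one]
      exact Iff.rfl
  have e3 : (∃ m : ℕ, ∀ U e, IsTwist T 1 U e → U.card ≤ 2 * m + 1 →
      (SelRoot (prodPow U e : K)).ncard < 3 ^ (m + 1)) ↔
      ∃ m : ℕ, ∀ U e, IsTw T U e → U.card ≤ 2 * m + 1 →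
        (Pool.Agent.XL6.SelK (tw U e : K)).ncard < 3 ^ (m + 1) :=
    exists_congr fun m => forall₂_congr fun U e => by
      rw [is_one]
      exact Iff.rfl
  tfae_have 1 ↔ 4 := by rw [e1, e4]; exact h1
  tfae_have 3 ↔ 4 := by rw [e3, e4]; exact h2
  tfae_have 1 → 2 := by
    rintro ⟨C, hC⟩
    refine ⟨C ^ 2, fun U e hU => ?_⟩
    obtain ⟨r, s, g1, g2, g3, g4, g5⟩ := facts hT hU
    have h3 := hC U e hU
    rw [g1] at h3
    rw [g2]
    calc 3 ^ (s + 1) ≤ 3 ^ ((r + 1) * 2) := Nat.pow_le_pow_right (by norm_num) (by omega)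
      _ = (3 ^ (r + 1)) ^ 2 := pow_mul _ _ _
      _ ≤ C ^ 2 := Nat.pow_le_pow_left h3 2
  tfae_have 2 → 1 := by
    rintro ⟨C, hC⟩
    refine ⟨C, fun U e hU => ?_⟩
    obtain ⟨r, s, g1, g2, g3, g4, g5⟩ := facts hT hU
    refine le_trans ?_ (hC U e hU)
    rw [g1, g2]
    exact Nat.pow_le_pow_right (by norm_num) (by omega)
  tfae_finish

theorem part5 {T : Set (𝓞 K)} (hT : ∀ p ∈ T, Admissible p) {ζ : 𝓞 K} {G : Finset (𝓞 K)}
    (hζ : ζ ^ 3 = 1) (h1 : ζ ≠ 1) (hCh : Coherent ζ T G) {U : Finset (𝓞 K)} {e : 𝓞 K → ℕ}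
    (hU : IsTwist T 1 U e) :
    (SelRoot (prodPow U e : K)).ncard ≤ 3 ^ ((U ∩ G).card + 1) ∧
      rank (prodPow U e : K) ≤ 2 * (U ∩ G).card := by
  obtain ⟨⟨j, hj⟩, -⟩ := Pool.Agent.Y455.CTK.jex K
  have h2 := sel_bd j hj (T := T) hT ((root_iff ζ).1 ⟨hζ, h1⟩) hCh (is_one.1 hU)
  have h3 : (SelRoot (prodPow U e : K)).ncard ≤ 3 ^ ((U ∩ G).card + 1) := h2
  refine ⟨h3, ?_⟩
  obtain ⟨r, s, g1, g2, g3, g4, g5⟩ := facts hT hU
  rw [g1] at h3
  have h4 : r + 1 ≤ (U ∩ G).card + 1 := (Nat.pow_le_pow_iff_right (by norm_num)).1 h3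
  omega

end proof

/-- **Main theorem.** -/
theorem result (K : Type) [Field K] [NumberField K] [IsCyclotomicExtension {3} ℚ K] :
    (∀ T : Set (𝓞 K), (∀ p ∈ T, Admissible p) →
      -- the twists by elements `1` modulo `3`
      [∀ U e, IsTwist T 1 U e → Holds (prodPow U e),
        ∀ U e, IsTwist T 1 U e → U.card ≤ 3 → Holds (prodPow U e),
        ∃ ζ : 𝓞 K, ζ ^ 3 = 1 ∧ ζ ≠ 1 ∧ Coherent ζ T ∅].TFAE ∧
      -- the other twists
      [∀ ξ U e, ξ ≠ 1 → IsTwist T ξ U e → Holds (ξ * prodPow U e),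
        ∀ ξ U e, ξ ≠ 1 → IsTwist T ξ U e → U.card ≤ 2 → Holds (ξ * prodPow U e),
        Coherent 1 T ∅].TFAE ∧
      -- all the twists over a coherent set
      (∀ ζ : 𝓞 K, ζ ^ 3 = 1 → Coherent ζ T ∅ → ∀ ξ U e, IsTwist T ξ U e →
        Law (ξ * prodPow U e) ∧ (FiniteAndTrivial (ξ * prodPow U e) ↔
          ξ ≠ ζ ^ (((Algebra.norm ℤ (prodPow U e)).natAbs - 1) / 3) ∨ U.card = 1)) ∧
      (Coherent 1 T ∅ → ∀ U e, IsTwist T 1 U e →
        (SelRoot (prodPow U e : K)).ncard = 3 ^ U.card) ∧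
      -- bounded Selmer groups
      [∃ C : ℕ, ∀ U e, IsTwist T 1 U e → (SelRoot (prodPow U e : K)).ncard ≤ C,
        ∃ C : ℕ, ∀ U e, IsTwist T 1 U e → Nat.card (Sel3 (prodPow U e : K)) ≤ C,
        ∃ m : ℕ, ∀ U e, IsTwist T 1 U e → U.card ≤ 2 * m + 1 →
          (SelRoot (prodPow U e : K)).ncard < 3 ^ (m + 1),
        ∃ (ζ : 𝓞 K) (G : Finset (𝓞 K)), ζ ^ 3 = 1 ∧ ζ ≠ 1 ∧ (G : Set (𝓞 K)) ⊆ T ∧
          Coherent ζ T G].TFAE ∧
      (∀ (ζ : 𝓞 K) (G : Finset (𝓞 K)), ζ ^ 3 = 1 → ζ ≠ 1 → Coherent ζ T G →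
        ∀ U e, IsTwist T 1 U e → (SelRoot (prodPow U e : K)).ncard ≤ 3 ^ ((U ∩ G).card + 1) ∧
          rank (prodPow U e : K) ≤ 2 * (U ∩ G).card) ∧
      -- the towers
      (∀ ζ : 𝓞 K, ζ ^ 3 = 1 → ζ ≠ 1 → Coherent ζ T ∅ → ∀ U, IsTwist T 1 U (fun _ => 1) →
        ∀ T' ⊆ T, T'.Nonempty →
          (∀ p ∈ T', ∀ r ∈ T', (9 : ℤ) ∣ Algebra.norm ℤ p - Algebra.norm ℤ r) →
          Tower (∏ p ∈ U, p) T')) ∧
    -- existence
    (∀ S : Set (𝓞 K), (∀ p ∈ S, Admissible p) → S.Infinite →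
      ∃ T ⊆ S, T.Infinite ∧ ∃ ζ : 𝓞 K, ζ ^ 3 = 1 ∧ Coherent ζ T ∅) ∧
    ∀ ζ : 𝓞 K, ζ ^ 3 = 1 →
      (∀ S : Set (𝓞 K), (∀ p ∈ S, Admissible p) → (∃ δ : ℝ, 0 < δ ∧ ∀ X₀ : ℕ, ∃ X : ℕ, X₀ ≤ X ∧
        δ * count (fun _ : 𝓞 K => True) X ≤ count (fun p => p ∈ S) X) →
        ∃ T ⊆ S, T.Infinite ∧ Coherent ζ T ∅) ∧
      ∀ P : Finset (𝓞 K), (∀ p ∈ P, Admissible p) → Tendsto (fun X : ℕ =>
        count (fun r => ¬ (9 : ℤ) ∣ Algebra.norm ℤ r - 1 ∧ r ∉ P ∧ ∀ p ∈ P, Linked ζ p r) X /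
          count (fun r : 𝓞 K => ¬ (9 : ℤ) ∣ Algebra.norm ℤ r - 1) X) atTop
        (nhds ((1 / 3 : ℝ) ^ P.card)) := by
  obtain ⟨⟨j, hj⟩, -⟩ := Pool.Agent.Y455.CTK.jex K
  refine ⟨fun T hT => ⟨part1 hT, part2 hT, fun ζ hζ hCh ξ U e hU => ⟨law_tw hT hU, ?_⟩,
    fun hCh U e hU => ?_, part4 hT, fun ζ G hζ h1 hCh U e hU => part5 hT hζ h1 hCh hU,
    fun ζ hζ h1 hCh U hU T' hT' hne hk => ?_⟩, fun S hS hI => ?_, fun ζ hζ => ⟨fun S hS hd => ?_,
    fun P hP => ?_⟩⟩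
  · exact Pool.Agent.U120.CC.co_K j hj (T := T) hT hζ hCh hU
  · exact Pool.Agent.U120.CC.sel_max j hj (T := T) hT hCh (is_one.1 hU)
  · have h9 : ¬ (9 : ℤ) ∣ Algebra.norm ℤ (∏ p ∈ U, p) - 1 := by
      have h2 := hU.2.2.2.2 rfl
      unfold prodPow at h2
      simpa only [pow_one] using h2
    obtain ⟨g1, g2⟩ := Pool.Agent.U120.CC.cor_K j hj (T := T) hT ((root_iff ζ).1 ⟨hζ, h1⟩) hCh
      hU.2.1 h9 hT' hk
    exact tower_of g1 hne g2
  · exact Pool.Agent.U120.CC.inf_K j hj hS hI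
  · obtain ⟨δ, hδ, h⟩ := hd
    exact Pool.Agent.U120.CC.dense_K j hj hζ hS hδ h
  · exact Pool.Agent.U120.CC.next_K j hj hζ P hP

end Pool.Agent.Results.MP_9faec4_nt.TwistsOverCoherentPrimes
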